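import Mathlib

/-! Forms of bidegree (2, 2) (helper70). -/

set_option autoImplicit false

open Filter Topology

namespace Pool.Agent.R70.BT

section alg

variable {A B : ℕ} {R : Type*} [CommRing R]

/-- the form with four arguments -/
def form4 (c : Fin A → Fin A → Fin B → Fin B → R) (x x' : Fin A → R) (y y' : Fin B → R) : R :=
  ∑ i, ∑ j, ∑ k, ∑ l, c i j k l * (x i * x' j * (y k * y' l))

/-- The form `∑ c_ijkl x_i x_j y_k y_l` of bidegree `(2, 2)`. -/
def form (c : Fin A → Fin A → Fin B → Fin B → R) (x : Fin A → R) (y : Fin B → R) : R :=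
  ∑ i, ∑ j, ∑ k, ∑ l, c i j k l * (x i * x j * (y k * y l))

/-- the polar form in the first group of variables -/
def polX (c : Fin A → Fin A → Fin B → Fin B → R) (y : Fin B → R) (x x' : Fin A → R) : R :=
  form c (x + x') y - form c x y - form c x' y

/-- the polar form in the second group of variables -/
def polY (c : Fin A → Fin A → Fin B → Fin B → R) (x : Fin A → R) (y y' : Fin B → R) : R :=
  form c x (y + y') - form c x y - form c x y'

theorem form_eq (c : Fin A → Fin A → Fin B → Fin B → R) (x : Fin A → R) (y : Fin B → R) :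
    form c x y = form4 c x x y y := rfl

theorem polX_eq (c : Fin A → Fin A → Fin B → Fin B → R) (y : Fin B → R) (x x' : Fin A → R) :
    polX c y x x' = form4 c x x' y y + form4 c x' x y y := by
  rw [polX, sub_sub, sub_eq_iff_eq_add]
  simp only [form, form4, ← Finset.sum_add_distrib]
  refine Finset.sum_congr rfl fun i _ => Finset.sum_congr rfl fun j _ =>
    Finset.sum_congr rfl fun k _ => Finset.sum_congr rfl fun l _ => ?_
  simp only [Pi.add_apply]
  ring

theorem polY_eq (c : Fin A → Fin A → Fin B → Fin B → R) (x : Fin A → R) (y y' : Fin B → R) :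
    polY c x y y' = form4 c x x y y' + form4 c x x y' y := by
  rw [polY, sub_sub, sub_eq_iff_eq_add]
  simp only [form, form4, ← Finset.sum_add_distrib]
  refine Finset.sum_congr rfl fun i _ => Finset.sum_congr rfl fun j _ =>
    Finset.sum_congr rfl fun k _ => Finset.sum_congr rfl fun l _ => ?_
  simp only [Pi.add_apply]
  ring

theorem form_line (c : Fin A → Fin A → Fin B → Fin B → R) (x u : Fin A → R) (y : Fin B → R)
    (s : R) : form c (x + s • u) y = form c x y + s * polX c y x u + s ^ 2 * form c u y := by
  rw [polX_eq]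
  simp only [form, form4, Finset.mul_sum, ← Finset.sum_add_distrib]
  refine Finset.sum_congr rfl fun i _ => Finset.sum_congr rfl fun j _ =>
    Finset.sum_congr rfl fun k _ => Finset.sum_congr rfl fun l _ => ?_
  simp only [Pi.add_apply, Pi.smul_apply, smul_eq_mul]
  ring

theorem form_smulX (c : Fin A → Fin A → Fin B → Fin B → R) (x : Fin A → R) (y : Fin B → R)
    (s : R) : form c (s • x) y = s ^ 2 * form c x y := by
  simp only [form, Finset.mul_sum]
  refine Finset.sum_congr rfl fun i _ => Finset.sum_congr rfl fun j _ =>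
    Finset.sum_congr rfl fun k _ => Finset.sum_congr rfl fun l _ => ?_
  simp only [Pi.smul_apply, smul_eq_mul]
  ring

/-- the polar form is linear in the second argument -/
theorem polX_lin (c : Fin A → Fin A → Fin B → Fin B → R) (y : Fin B → R) (x u v : Fin A → R)
    (s : R) : polX c y x (u + s • v) = polX c y x u + s * polX c y x v := by
  simp only [polX_eq, form4, Finset.mul_sum, ← Finset.sum_add_distrib, mul_add]
  refine Finset.sum_congr rfl fun i _ => Finset.sum_congr rfl fun j _ =>
    Finset.sum_congr rfl fun k _ => Finset.sum_congr rfl fun l _ => ?_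
  simp only [Pi.add_apply, Pi.smul_apply, smul_eq_mul]
  ring

theorem polX_smul (c : Fin A → Fin A → Fin B → Fin B → R) (y : Fin B → R) (x v : Fin A → R)
    (s : R) : polX c y x (s • v) = s * polX c y x v := by
  simp only [polX_eq, form4, Finset.mul_sum, ← Finset.sum_add_distrib, mul_add]
  refine Finset.sum_congr rfl fun i _ => Finset.sum_congr rfl fun j _ =>
    Finset.sum_congr rfl fun k _ => Finset.sum_congr rfl fun l _ => ?_
  simp only [Pi.smul_apply, smul_eq_mul]
  ring

theorem polX_self (c : Fin A → Fin A → Fin B → Fin B → R) (y : Fin B → R) (x : Fin A → R) :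
    polX c y x x = 2 * form c x y := by
  rw [polX_eq, form_eq]
  ring

theorem polX_comm (c : Fin A → Fin A → Fin B → Fin B → R) (y : Fin B → R) (x x' : Fin A → R) :
    polX c y x x' = polX c y x' x := by
  rw [polX_eq, polX_eq, add_comm]

/-- the form with the two groups of variables exchanged -/
def sw (c : Fin A → Fin A → Fin B → Fin B → R) : Fin B → Fin B → Fin A → Fin A → R :=
  fun k l i j => c i j k l

theorem form_sw (c : Fin A → Fin A → Fin B → Fin B → R) (x : Fin A → R) (y : Fin B → R) :
    form (sw c) y x = form c x y := by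
  have h1 : ∀ (f : Fin A → Fin A → Fin B → Fin B → R),
      ∑ i, ∑ j, ∑ k, ∑ l, f i j k l = ∑ k, ∑ l, ∑ i, ∑ j, f i j k l := by
    intro f
    have e1 : ∀ i, ∑ j, ∑ k, ∑ l, f i j k l = ∑ k, ∑ j, ∑ l, f i j k l :=
      fun i => Finset.sum_comm
    have e2 : ∀ i k, ∑ j, ∑ l, f i j k l = ∑ l, ∑ j, f i j k l := fun i k => Finset.sum_comm
    simp only [e1, e2]
    rw [Finset.sum_comm]
    refine Finset.sum_congr rfl fun k _ => ?_
    rw [Finset.sum_comm]
  rw [form, form, h1]
  refine Finset.sum_congr rfl fun k _ => Finset.sum_congr rfl fun l _ =>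
    Finset.sum_congr rfl fun i _ => Finset.sum_congr rfl fun j _ => ?_
  simp only [sw]
  ring

theorem polY_sw (c : Fin A → Fin A → Fin B → Fin B → R) (x : Fin A → R) (y y' : Fin B → R) :
    polY c x y y' = polX (sw c) x y y' := by
  rw [polY, polX, form_sw, form_sw, form_sw]

theorem form_map {S : Type*} [CommRing S] (φ : R →+* S)
    (c : Fin A → Fin A → Fin B → Fin B → R) (x : Fin A → R) (y : Fin B → R) :
    form (fun i j k l => φ (c i j k l)) (fun i => φ (x i)) (fun k => φ (y k)) =
      φ (form c x y) := by
  simp only [form, map_sum, map_mul]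

theorem polX_map {S : Type*} [CommRing S] (φ : R →+* S)
    (c : Fin A → Fin A → Fin B → Fin B → R) (y : Fin B → R) (x x' : Fin A → R) :
    polX (fun i j k l => φ (c i j k l)) (fun k => φ (y k)) (fun i => φ (x i)) (fun i => φ (x' i)) =
      φ (polX c y x x') := by
  rw [polX, polX, map_sub, map_sub, ← form_map, ← form_map, ← form_map]
  congr 2
  congr 1
  funext i
  exact (map_add φ _ _).symm

/-- a direction in which a nonzero linear form and the quadratic form do not vanish -/
theorem exists_dir {F : Type*} [Field F] (c : Fin A → Fin A → Fin B → Fin B → F)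
    {x : Fin A → F} {y : Fin B → F} (h : form c x y = 0) {w : Fin A → F} (hw : polX c y x w ≠ 0) :
    ∃ w' : Fin A → F, polX c y x w' ≠ 0 ∧ form c w' y ≠ 0 := by
  by_cases h0 : form c w y = 0
  · refine ⟨w + (1 : F) • x, ?_, ?_⟩
    · rw [polX_lin, polX_self, h, mul_zero, mul_zero, add_zero]
      exact hw
    · rw [form_line, h0, h, polX_comm, mul_zero, add_zero, zero_add, one_mul]
      exact hw
  · exact ⟨w, hw, h0⟩

end alg

end Pool.Agent.R70.BT
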