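import Pool.Agent.R70.BT.Nice

/-! The geometric form of the condition (helper70). -/

set_option autoImplicit false
set_option maxHeartbeats 400000

open Filter Topology

namespace Pool.Agent.R70.BT

section alg

attribute [local irreducible] form

variable {A B : ℕ} {R : Type*} [CommRing R]

/-- the second intersection point of a quadric with a line through a given point, up to a factor -/
def par (c : Fin A → Fin A → Fin B → Fin B → R) (y : Fin B → R) (x u : Fin A → R) : Fin A → R :=
  fun i => form c u y * x i - polX c y x u * u i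

theorem par_eq (c : Fin A → Fin A → Fin B → Fin B → R) (y : Fin B → R) (x u : Fin A → R) :
    par c y x u = form c u y • x + (-(polX c y x u)) • u := by
  funext i
  simp only [par, Pi.add_apply, Pi.smul_apply, smul_eq_mul]
  ring

theorem form_par (c : Fin A → Fin A → Fin B → Fin B → R) {y : Fin B → R} {x : Fin A → R}
    (h : form c x y = 0) (u : Fin A → R) : form c (par c y x u) y = 0 := by
  rw [par_eq, form_line, form_smulX, h, polX_comm c y (form c u y • x) u, polX_smul,
    polX_comm c y u x]
  ring

/-- the product of the expressions which have to be different from zero -/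
def cond (c : Fin A → Fin A → Fin B → Fin B → R) (x : Fin A → R) (y : Fin B → R)
    (u u' : Fin A → R) (w w' : Fin B → R) : R :=
  polX c y x (par c y x u) * polX c y (par c y x u) (par c y (par c y x u) u') *
    (polY c (par c y x u) y w * polY c (par c y (par c y x u) u') y w' -
      polY c (par c y x u) y w' * polY c (par c y (par c y x u) u') y w)

variable {S : Type*} [CommRing S] (φ : R →+* S)

theorem polY_map (c : Fin A → Fin A → Fin B → Fin B → R) (x : Fin A → R) (y y' : Fin B → R) :
    polY (fun i j k l => φ (c i j k l)) (fun i => φ (x i)) (fun k => φ (y k)) (fun k => φ (y' k)) =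
      φ (polY c x y y') := by
  rw [polY_sw, polY_sw]
  exact polX_map φ (sw c) x y y'

theorem par_map (c : Fin A → Fin A → Fin B → Fin B → R) (y : Fin B → R) (x u : Fin A → R) :
    par (fun i j k l => φ (c i j k l)) (fun k => φ (y k)) (fun i => φ (x i)) (fun i => φ (u i)) =
      fun i => φ (par c y x u i) := by
  funext i
  simp only [par, form_map, polX_map, map_sub, map_mul]

theorem cond_map (c : Fin A → Fin A → Fin B → Fin B → R) (x : Fin A → R) (y : Fin B → R)
    (u u' : Fin A → R) (w w' : Fin B → R) :
    cond (fun i j k l => φ (c i j k l)) (fun i => φ (x i)) (fun k => φ (y k)) (fun i => φ (u i))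
      (fun i => φ (u' i)) (fun k => φ (w k)) (fun k => φ (w' k)) = φ (cond c x y u u' w w') := by
  simp only [cond, par_map, polX_map, polY_map, map_mul, map_sub]

end alg

section field

attribute [local irreducible] form

variable {A B : ℕ} {L : Type} [Field L]

/-- Two points `x', x''` of the quadric `F(·, y) = 0` over an extension `M` of `L`, such that `x`
and `x'`, and `x'` and `x''`, are not conjugate with respect to the quadric, and the linear forms
`∂_y F(x', y)` and `∂_y F(x'', y)` are linearly independent. -/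
def GoodOver (c : Fin A → Fin A → Fin B → Fin B → L) (M : Type) [Field M] [Algebra L M]
    (T : (Fin A → L) × (Fin B → L)) : Prop :=
  ∃ x' x'' : Fin A → M,
    form (fun i j k l => algebraMap L M (c i j k l)) x' (fun k => algebraMap L M (T.2 k)) = 0 ∧
    form (fun i j k l => algebraMap L M (c i j k l)) x'' (fun k => algebraMap L M (T.2 k)) = 0 ∧
    polX (fun i j k l => algebraMap L M (c i j k l)) (fun k => algebraMap L M (T.2 k))
      (fun i => algebraMap L M (T.1 i)) x' ≠ 0 ∧
    polX (fun i j k l => algebraMap L M (c i j k l)) (fun k => algebraMap L M (T.2 k)) x' x'' ≠ 0 ∧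
    ∃ w w' : Fin B → M,
      polY (fun i j k l => algebraMap L M (c i j k l)) x' (fun k => algebraMap L M (T.2 k)) w *
        polY (fun i j k l => algebraMap L M (c i j k l)) x'' (fun k => algebraMap L M (T.2 k)) w' ≠
      polY (fun i j k l => algebraMap L M (c i j k l)) x' (fun k => algebraMap L M (T.2 k)) w' *
        polY (fun i j k l => algebraMap L M (c i j k l)) x'' (fun k => algebraMap L M (T.2 k)) w

theorem polY_smulX {R : Type*} [CommRing R] (c : Fin A → Fin A → Fin B → Fin B → R)
    (x : Fin A → R) (y w : Fin B → R) (s : R) :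
    polY c (s • x) y w = s ^ 2 * polY c x y w := by
  rw [polY, polY, form_smulX, form_smulX, form_smulX]
  ring

/-- the parametrization reaches the given points -/
theorem cond_ne {M : Type} [Field M] (c : Fin A → Fin A → Fin B → Fin B → M)
    {x x' x'' : Fin A → M} {y : Fin B → M} (h0 : form c x y = 0) (h1 : form c x' y = 0)
    (h2 : form c x'' y = 0) (h3 : polX c y x x' ≠ 0) (h4 : polX c y x' x'' ≠ 0)
    {w w' : Fin B → M}
    (h5 : polY c x' y w * polY c x'' y w' ≠ polY c x' y w' * polY c x'' y w) :
    ∃ u u' : Fin A → M, cond c x y u u' w w' ≠ 0 := by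
  have key : ∀ {a b : Fin A → M}, form c a y = 0 → form c b y = 0 →
      par c y a (b + (-1 : M) • a) = (-(polX c y a b)) • b := by
    intro a b ha hb
    rw [par_eq, polX_lin, polX_self, form_line, ha, hb, polX_comm c y b a]
    funext i
    simp only [Pi.add_apply, Pi.smul_apply, smul_eq_mul]
    ring
  have e1 : par c y x (x' + (-1 : M) • x) = (-(polX c y x x')) • x' := key h0 h1
  set β := -(polX c y x x') with hβ
  have hβ0 : β ≠ 0 := neg_ne_zero.2 h3
  have h1' : form c (β • x') y = 0 := by rw [form_smulX, h1, mul_zero]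
  have e2 : par c y (β • x') (x'' + (-1 : M) • (β • x')) =
      (-(polX c y (β • x') x'')) • x'' := key h1' h2
  set γ := -(polX c y (β • x') x'') with hγ
  have hγ0 : γ ≠ 0 := by
    rw [hγ, polX_comm, polX_smul, polX_comm]
    exact neg_ne_zero.2 (mul_ne_zero hβ0 h4)
  refine ⟨x' + (-1 : M) • x, x'' + (-1 : M) • (β • x'), ?_⟩
  rw [cond, e1, e2]
  refine mul_ne_zero (mul_ne_zero ?_ ?_) ?_
  · rw [polX_smul]
    exact mul_ne_zero hβ0 h3
  · rw [polX_smul, polX_comm, polX_smul, polX_comm]
    exact mul_ne_zero hγ0 (mul_ne_zero hβ0 h4)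
  · rw [polY_smulX, polY_smulX, polY_smulX, polY_smulX]
    have e3 : β ^ 2 * polY c x' y w * (γ ^ 2 * polY c x'' y w') -
        β ^ 2 * polY c x' y w' * (γ ^ 2 * polY c x'' y w) = (β ^ 2 * γ ^ 2) *
        (polY c x' y w * polY c x'' y w' - polY c x' y w' * polY c x'' y w) := by ring
    rw [e3]
    exact mul_ne_zero (mul_ne_zero (pow_ne_zero 2 hβ0) (pow_ne_zero 2 hγ0)) (sub_ne_zero.2 h5)

/-- **The condition over an extension implies the condition over the field.** -/
theorem good_descent [Infinite L] (c : Fin A → Fin A → Fin B → Fin B → L) {M : Type} [Field M]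
    [Algebra L M] {T : (Fin A → L) × (Fin B → L)} (hT : form c T.1 T.2 = 0)
    (h : GoodOver c M T) :
    ∃ x' : Fin A → L, (form c x' T.2 = 0 ∧ polX c T.2 T.1 x' ≠ 0) ∧ Good c (x', T.2) := by
  obtain ⟨x', x'', h1, h2, h3, h4, w, w', h5⟩ := h
  have hT' : form (fun i j k l => algebraMap L M (c i j k l)) (fun i => algebraMap L M (T.1 i))
      (fun k => algebraMap L M (T.2 k)) = 0 := by
    rw [form_map, hT, map_zero]
  obtain ⟨u, u', hu⟩ := cond_ne _ hT' h1 h2 h3 h4 h5
  -- the polynomial
  let σ := (Fin A ⊕ Fin A) ⊕ (Fin B ⊕ Fin B)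
  let P : MvPolynomial σ L := cond (fun i j k l => MvPolynomial.C (c i j k l))
    (fun i => MvPolynomial.C (T.1 i)) (fun k => MvPolynomial.C (T.2 k))
    (fun i => MvPolynomial.X (Sum.inl (Sum.inl i))) (fun i => MvPolynomial.X (Sum.inl (Sum.inr i)))
    (fun k => MvPolynomial.X (Sum.inr (Sum.inl k))) (fun k => MvPolynomial.X (Sum.inr (Sum.inr k)))
  have hP : P ≠ 0 := by
    intro h0
    apply hu
    let ψ : MvPolynomial σ L →+* M := (MvPolynomial.aeval
      (Sum.elim (Sum.elim u u') (Sum.elim w w') : σ → M) : MvPolynomial σ L →ₐ[L] M).toRingHom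
    have h6 := cond_map ψ (fun i j k l => MvPolynomial.C (c i j k l) :
      Fin A → Fin A → Fin B → Fin B → MvPolynomial σ L)
      (fun i => MvPolynomial.C (T.1 i)) (fun k => MvPolynomial.C (T.2 k))
      (fun i => MvPolynomial.X (Sum.inl (Sum.inl i)))
      (fun i => MvPolynomial.X (Sum.inl (Sum.inr i)))
      (fun k => MvPolynomial.X (Sum.inr (Sum.inl k)))
      (fun k => MvPolynomial.X (Sum.inr (Sum.inr k)))
    have h7 : ψ P = 0 := by rw [h0, map_zero]
    have e1 : ∀ a : L, ψ (MvPolynomial.C a) = algebraMap L M a := fun a => by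
      change MvPolynomial.aeval _ (MvPolynomial.C a) = _
      rw [MvPolynomial.aeval_C]
    have e2 : ∀ s : σ, ψ (MvPolynomial.X s) = Sum.elim (Sum.elim u u') (Sum.elim w w') s :=
      fun s => by
        change MvPolynomial.aeval _ (MvPolynomial.X s) = _
        rw [MvPolynomial.aeval_X]
    simp only [e1, e2, Sum.elim_inl, Sum.elim_inr] at h6
    exact h6.trans h7
  have hex : ∃ z : σ → L, MvPolynomial.eval z P ≠ 0 := by
    by_contra hcon
    push Not at hcon
    apply hP
    exact MvPolynomial.funext fun z => by rw [hcon z, map_zero]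
  obtain ⟨z, hz⟩ := hex
  have h6 := cond_map (MvPolynomial.eval z) (fun i j k l => MvPolynomial.C (c i j k l) :
      Fin A → Fin A → Fin B → Fin B → MvPolynomial σ L)
    (fun i => MvPolynomial.C (T.1 i)) (fun k => MvPolynomial.C (T.2 k))
    (fun i => MvPolynomial.X (Sum.inl (Sum.inl i))) (fun i => MvPolynomial.X (Sum.inl (Sum.inr i)))
    (fun k => MvPolynomial.X (Sum.inr (Sum.inl k))) (fun k => MvPolynomial.X (Sum.inr (Sum.inr k)))
  simp only [MvPolynomial.eval_C, MvPolynomial.eval_X] at h6
  change _ = MvPolynomial.eval z P at h6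
  rw [← h6] at hz
  rw [cond] at hz
  obtain ⟨hz1, hz3⟩ := ne_zero_and_ne_zero_of_mul hz
  obtain ⟨hz1, hz2⟩ := ne_zero_and_ne_zero_of_mul hz1
  have f1 := form_par c hT (fun i => z (Sum.inl (Sum.inl i)))
  have f2 := form_par c f1 (fun i => z (Sum.inl (Sum.inr i)))
  exact ⟨_, ⟨f1, hz1⟩, _, f2, hz2, _, _, sub_ne_zero.1 hz3⟩

end field

end Pool.Agent.R70.BT
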