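import Pool.Agent.R70.BT.Top

/-! The local computation for hypersurfaces of bidegree (2, 2) (helper70). -/

set_option autoImplicit false
set_option maxHeartbeats 400000

open Filter Topology

namespace Pool.Agent.R70.BT

section lin

variable {A B : ℕ} {R : Type*} [CommRing R]

theorem polY_lin (c : Fin A → Fin A → Fin B → Fin B → R) (x : Fin A → R) (y u v : Fin B → R)
    (s : R) : polY c x y (u + s • v) = polY c x y u + s * polY c x y v := by
  rw [polY_sw, polX_lin, ← polY_sw, ← polY_sw]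

theorem polY_smul (c : Fin A → Fin A → Fin B → Fin B → R) (x : Fin A → R) (y v : Fin B → R)
    (s : R) : polY c x y (s • v) = s * polY c x y v := by
  rw [polY_sw, polX_smul, ← polY_sw]

theorem polY_self (c : Fin A → Fin A → Fin B → Fin B → R) (x : Fin A → R) (y : Fin B → R) :
    polY c x y y = 2 * form c x y := by
  rw [polY_sw, polX_self, form_sw]

theorem form_lineY (c : Fin A → Fin A → Fin B → Fin B → R) (x : Fin A → R) (y u : Fin B → R)
    (s : R) : form c x (y + s • u) = form c x y + s * polY c x y u + s ^ 2 * form c x u := by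
  rw [← form_sw, form_line, form_sw, form_sw, polY_sw]

end lin

section

variable {L : Type} [NontriviallyNormedField L] {A B : ℕ}

/-- the coordinates -/
noncomputable def e1 (L : Type) [NontriviallyNormedField L] (A B : ℕ) (i : Fin A) :
    ((Fin A → L) × (Fin B → L)) →L[L] L :=
  (ContinuousLinearMap.proj (R := L) (φ := fun _ : Fin A => L) i).comp
    (ContinuousLinearMap.fst L (Fin A → L) (Fin B → L))

/-- the coordinates -/
noncomputable def e2 (L : Type) [NontriviallyNormedField L] (A B : ℕ) (k : Fin B) :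
    ((Fin A → L) × (Fin B → L)) →L[L] L :=
  (ContinuousLinearMap.proj (R := L) (φ := fun _ : Fin B => L) k).comp
    (ContinuousLinearMap.snd L (Fin A → L) (Fin B → L))

/-- **The differential of the form.** -/
theorem form_strict (c : Fin A → Fin A → Fin B → Fin B → L) (P : (Fin A → L) × (Fin B → L)) :
    ∃ D : ((Fin A → L) × (Fin B → L)) →L[L] L,
      HasStrictFDerivAt (fun P : (Fin A → L) × (Fin B → L) => form c P.1 P.2) D P ∧
      ∀ V, D V = polX c P.2 P.1 V.1 + polY c P.1 P.2 V.2 := by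
  let T : Fin A → Fin A → Fin B → Fin B → (((Fin A → L) × (Fin B → L)) →L[L] L) :=
    fun i j k l => c i j k l • ((e1 L A B i P * e1 L A B j P) •
      (e2 L A B k P • e2 L A B l + e2 L A B l P • e2 L A B k) +
      (e2 L A B k P * e2 L A B l P) • (e1 L A B i P • e1 L A B j + e1 L A B j P • e1 L A B i))
  have hT : ∀ i j k l, HasStrictFDerivAt (fun P : (Fin A → L) × (Fin B → L) =>
      c i j k l * (e1 L A B i P * e1 L A B j P * (e2 L A B k P * e2 L A B l P))) (T i j k l) P := by
    intro i j k l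
    have h1 := (e1 L A B i).hasStrictFDerivAt (x := P)
    have h2 := (e1 L A B j).hasStrictFDerivAt (x := P)
    have h3 := (e2 L A B k).hasStrictFDerivAt (x := P)
    have h4 := (e2 L A B l).hasStrictFDerivAt (x := P)
    exact ((h1.mul h2).mul (h3.mul h4)).const_mul (c i j k l)
  refine ⟨∑ i, ∑ j, ∑ k, ∑ l, T i j k l, ?_, fun V => ?_⟩
  · have h : (fun P : (Fin A → L) × (Fin B → L) => form c P.1 P.2) = fun P =>
        ∑ i, ∑ j, ∑ k, ∑ l, c i j k l * (e1 L A B i P * e1 L A B j P *
          (e2 L A B k P * e2 L A B l P)) := rfl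
    rw [h]
    exact HasStrictFDerivAt.fun_sum fun i _ => HasStrictFDerivAt.fun_sum fun j _ =>
      HasStrictFDerivAt.fun_sum fun k _ => HasStrictFDerivAt.fun_sum fun l _ => hT i j k l
  · rw [polX_eq, polY_eq]
    simp only [ContinuousLinearMap.sum_apply, form4, ← Finset.sum_add_distrib]
    refine Finset.sum_congr rfl fun i _ => Finset.sum_congr rfl fun j _ =>
      Finset.sum_congr rfl fun k _ => Finset.sum_congr rfl fun l _ => ?_
    change c i j k l * ((P.1 i * P.1 j) * (P.2 k * V.2 l + P.2 l * V.2 k) +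
      (P.2 k * P.2 l) * (P.1 i * V.1 j + P.1 j * V.1 i)) = _
    ring

/-- **The local system of equations.** -/
theorem solve [CompleteSpace L] {c : Fin A → Fin A → Fin B → Fin B → L} {x0 x2 : Fin A → L}
    {y0 : Fin B → L} (h0 : form c x0 y0 = 0) (h2 : form c x2 y0 = 0)
    (hB : polX c y0 x2 x0 ≠ 0) {w1 w2 : Fin B → L}
    (hγ : polY c x0 y0 w1 * polY c x2 y0 w2 - polY c x0 y0 w2 * polY c x2 y0 w1 ≠ 0)
    {W : Set (((Fin A → L) × (Fin B → L)) × ((Fin A → L) × (Fin B → L)))}
    (hW : W ∈ 𝓝 ((x2, y0), (x0, y0))) :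
    ∀ᶠ S : (Fin A → L) × (Fin B → L) in 𝓝 (x0, y0), ∃ (X : Fin A → L) (Y : Fin B → L),
      ((X, Y), S) ∈ W ∧ form c x0 Y = 0 ∧ form c X Y = 0 ∧ form c X S.2 = 0 := by
  obtain ⟨D0, hD0, hD0'⟩ := form_strict c (x0, y0)
  obtain ⟨D2, hD2, hD2'⟩ := form_strict c (x2, y0)
  let E := ((Fin A → L) × (Fin B → L)) × ((Fin A → L) × (Fin B → L))
  let pU : E →L[L] ((Fin A → L) × (Fin B → L)) := ContinuousLinearMap.fst L _ _
  let pS : E →L[L] ((Fin A → L) × (Fin B → L)) := ContinuousLinearMap.snd L _ _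
  let pX : E →L[L] (Fin A → L) := (ContinuousLinearMap.fst L _ _).comp pU
  let pY : E →L[L] (Fin B → L) := (ContinuousLinearMap.snd L _ _).comp pU
  let pS2 : E →L[L] (Fin B → L) := (ContinuousLinearMap.snd L _ _).comp pS
  let q0 : E →L[L] ((Fin A → L) × (Fin B → L)) := (0 : E →L[L] (Fin A → L)).prod pY
  let q3 : E →L[L] ((Fin A → L) × (Fin B → L)) := pX.prod pS2
  let b : E := ((x2, y0), (x0, y0))
  let H : E → (L × L × L) × ((Fin A → L) × (Fin B → L)) := fun e =>
    ((form c x0 (pY e), form c (pU e).1 (pU e).2, form c (q3 e).1 (q3 e).2), pS e)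
  let H' : E →L[L] (L × L × L) × ((Fin A → L) × (Fin B → L)) :=
    ((D0.comp q0).prod ((D2.comp pU).prod (D2.comp q3))).prod pS
  have g1 : HasStrictFDerivAt (fun e : E => form c x0 (pY e)) (D0.comp q0) b := by
    have h : HasStrictFDerivAt (fun e : E => (x0, pY e)) q0 b :=
      (hasStrictFDerivAt_const x0 b).prodMk pY.hasStrictFDerivAt
    exact HasStrictFDerivAt.comp (g := fun P : (Fin A → L) × (Fin B → L) => form c P.1 P.2)
      (f := fun e : E => (x0, pY e)) b hD0 h
  have g2 : HasStrictFDerivAt (fun e : E => form c (pU e).1 (pU e).2) (D2.comp pU) b :=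
    HasStrictFDerivAt.comp (g := fun P : (Fin A → L) × (Fin B → L) => form c P.1 P.2)
      (f := fun e : E => pU e) b hD2 pU.hasStrictFDerivAt
  have g3 : HasStrictFDerivAt (fun e : E => form c (q3 e).1 (q3 e).2) (D2.comp q3) b :=
    HasStrictFDerivAt.comp (g := fun P : (Fin A → L) × (Fin B → L) => form c P.1 P.2)
      (f := fun e : E => q3 e) b hD2 q3.hasStrictFDerivAt
  have hH : HasStrictFDerivAt H H' b := (g1.prodMk (g2.prodMk g3)).prodMk pS.hasStrictFDerivAt
  have hsurj : H'.range = ⊤ := by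
    rw [eq_top_iff]
    rintro ⟨⟨r1, r2, r3⟩, ⟨a, w⟩⟩ -
    set Δ := polY c x0 y0 w1 * polY c x2 y0 w2 - polY c x0 y0 w2 * polY c x2 y0 w1 with hΔ
    set β := polX c y0 x2 x0 with hβ
    let t := (r3 - polY c x2 y0 w) / β
    let r2' := r2 - t * β
    let p := (r1 * polY c x2 y0 w2 - r2' * polY c x0 y0 w2) / Δ
    let q := (polY c x0 y0 w1 * r2' - polY c x2 y0 w1 * r1) / Δ
    refine ⟨((t • x0, p • w1 + q • w2), (a, w)), ?_⟩
    change ((D0 (0, p • w1 + q • w2), D2 (t • x0, p • w1 + q • w2), D2 (t • x0, w)), (a, w)) = _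
    have ht : t * β = r3 - polY c x2 y0 w := div_mul_cancel₀ _ hB
    have e1' : polY c x0 y0 (p • w1 + q • w2) = r1 := by
      rw [polY_lin, polY_smul]
      have : p * polY c x0 y0 w1 + q * polY c x0 y0 w2 = r1 * Δ / Δ := by
        simp only [p, q]
        rw [hΔ]
        field_simp
        ring
      rw [this, mul_div_cancel_right₀ _ hγ]
    have e2' : polY c x2 y0 (p • w1 + q • w2) = r2' := by
      rw [polY_lin, polY_smul]
      have : p * polY c x2 y0 w1 + q * polY c x2 y0 w2 = r2' * Δ / Δ := by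
        simp only [p, q]
        rw [hΔ]
        field_simp
        ring
      rw [this, mul_div_cancel_right₀ _ hγ]
    have e0 : polX c y0 x0 (0 : Fin A → L) = 0 := by
      have := polX_smul c y0 x0 (0 : Fin A → L) 0
      rwa [zero_smul, zero_mul] at this
    rw [hD0', hD2', hD2']
    change ((polX c y0 x0 0 + polY c x0 y0 (p • w1 + q • w2),
      polX c y0 x2 (t • x0) + polY c x2 y0 (p • w1 + q • w2),
      polX c y0 x2 (t • x0) + polY c x2 y0 w), (a, w)) = _
    rw [e0, e1', e2', polX_smul, ← hβ, ht, zero_add]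
    have e3 : r3 - polY c x2 y0 w + r2' = r2 := by
      simp only [r2']
      rw [ht]
      ring
    have e4 : r3 - polY c x2 y0 w + polY c x2 y0 w = r3 := by ring
    rw [e3, e4]
  have hmap := hH.map_nhds_eq_of_surj hsurj
  have hHb : H b = ((0, 0, 0), (x0, y0)) := by
    change ((form c x0 y0, form c x2 y0, form c x2 y0), (x0, y0)) = _
    rw [h0, h2]
  rw [hHb] at hmap
  have hIm : H '' W ∈ 𝓝 (((0, 0, 0), (x0, y0)) : (L × L × L) × ((Fin A → L) × (Fin B → L))) := by
    rw [← hmap]
    exact image_mem_map hW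
  have hcont : Continuous fun S : (Fin A → L) × (Fin B → L) =>
      (((0, 0, 0), S) : (L × L × L) × ((Fin A → L) × (Fin B → L))) := by fun_prop
  have hev := hcont.continuousAt (x := (x0, y0)) hIm
  filter_upwards [hev] with S hS
  obtain ⟨⟨⟨X, Y⟩, S'⟩, hWS, heq⟩ := hS
  have k1 : S' = S := congrArg Prod.snd heq
  subst k1
  have k2 : form c x0 Y = 0 := congrArg (fun z => z.1.1) heq
  have k3 : form c X Y = 0 := congrArg (fun z => z.1.2.1) heq
  have k4 : form c X S'.2 = 0 := congrArg (fun z => z.1.2.2) heq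
  exact ⟨X, Y, hWS, k2, k3, k4⟩

end

end Pool.Agent.R70.BT
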