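import Pool.Agent.R70.BT.Loc

/-! The closure of the rational points of hypersurfaces of bidegree (2, 2) is open at the good
points (helper70). -/

set_option autoImplicit false
set_option maxHeartbeats 400000

open Filter Topology

namespace Pool.Agent.R70.BT

attribute [local irreducible] form

section loc

variable {L : Type} [NontriviallyNormedField L] {A B : ℕ}

theorem polY_cont {E : Type} [TopologicalSpace E] (c : Fin A → Fin A → Fin B → Fin B → L)
    {f : E → Fin A → L} {g g' : E → Fin B → L} (hf : Continuous f) (hg : Continuous g)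
    (hg' : Continuous g') : Continuous fun e => polY c (f e) (g e) (g' e) := by
  unfold polY
  exact ((form_cont' c hf (hg.add hg')).sub (form_cont' c hf hg)).sub (form_cont' c hf hg')

theorem polY_comm (c : Fin A → Fin A → Fin B → Fin B → L) (x : Fin A → L) (y y' : Fin B → L) :
    polY c x y y' = polY c x y' y := by
  rw [polY_sw, polX_comm, ← polY_sw]

theorem exists_dirY (c : Fin A → Fin A → Fin B → Fin B → L)
    {x : Fin A → L} {y : Fin B → L} (h : form c x y = 0) {w : Fin B → L} (hw : polY c x y w ≠ 0) :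
    ∃ w' : Fin B → L, polY c x y w' ≠ 0 ∧ form c x w' ≠ 0 := by
  obtain ⟨w', h1, h2⟩ := exists_dir (sw c) (x := y) (y := x) (by rw [form_sw]; exact h) (w := w)
    (by rw [← polY_sw]; exact hw)
  exact ⟨w', by rw [polY_sw]; exact h1, by rw [← form_sw]; exact h2⟩

/-- the second intersection point of a line -/
theorem line_pt (c : Fin A → Fin A → Fin B → Fin B → L) {x : Fin A → L} {y w : Fin B → L}
    (h : form c x y = 0) (hw : form c x w ≠ 0) :
    form c x (y + (-(polY c x y w) / form c x w) • w) = 0 := by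
  rw [form_lineY, h]
  field_simp
  ring

/-- **The chain of moves to the points near a good point.** -/
theorem chain [CompleteSpace L] {c : Fin A → Fin A → Fin B → Fin B → L} {x0 x2 : Fin A → L}
    {y0 : Fin B → L} (h0 : form c x0 y0 = 0) (h2 : form c x2 y0 = 0)
    (hB : polX c y0 x0 x2 ≠ 0) {w1 w2 : Fin B → L}
    (hγ : polY c x0 y0 w1 * polY c x2 y0 w2 ≠ polY c x0 y0 w2 * polY c x2 y0 w1) :
    ∀ᶠ S : (Fin A → L) × (Fin B → L) in 𝓝 (x0, y0),
      ∃ (z Y z' : Fin B → L) (X : Fin A → L),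
        (form c x0 z = 0 ∧ polY c x0 y0 z ≠ 0) ∧ (form c x0 Y = 0 ∧ polY c x0 z Y ≠ 0) ∧
        (form c X Y = 0 ∧ polX c Y x0 X ≠ 0) ∧ (form c X z' = 0 ∧ polY c X Y z' ≠ 0) ∧
        (form c X S.2 = 0 ∧ polY c X z' S.2 ≠ 0) ∧ polX c S.2 X S.1 ≠ 0 := by
  have hw0 : ∃ w, polY c x0 y0 w ≠ 0 := by
    by_contra hcon
    push Not at hcon
    exact hγ (by rw [hcon, hcon, zero_mul, zero_mul])
  have hw2 : ∃ w, polY c x2 y0 w ≠ 0 := by
    by_contra hcon
    push Not at hcon
    exact hγ (by rw [hcon, hcon, mul_zero, mul_zero])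
  obtain ⟨u0, hu0⟩ := hw0
  obtain ⟨u2, hu2⟩ := hw2
  obtain ⟨u, k1, k2⟩ := exists_dirY c h0 hu0
  obtain ⟨w, k3, k4⟩ := exists_dirY c h2 hu2
  set z : Fin B → L := y0 + (-(polY c x0 y0 u) / form c x0 u) • u with hz
  have hz0 : form c x0 z = 0 := line_pt c h0 k2
  have hz1 : polY c x0 y0 z ≠ 0 := by
    rw [hz, polY_lin, polY_self, h0, mul_zero, zero_add]
    exact mul_ne_zero (div_ne_zero (neg_ne_zero.2 k1) k2) k1
  let W : Set (((Fin A → L) × (Fin B → L)) × ((Fin A → L) × (Fin B → L))) :=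
    {e | polX c e.1.2 x0 e.1.1 ≠ 0 ∧ polY c x0 z e.1.2 ≠ 0 ∧ form c e.1.1 w ≠ 0 ∧
      polY c e.1.1 e.1.2 w ≠ 0 ∧
      form c e.1.1 w * polY c e.1.1 e.2.2 e.1.2 - polY c e.1.1 e.1.2 w * polY c e.1.1 e.2.2 w ≠ 0 ∧
      polX c e.2.2 e.1.1 e.2.1 ≠ 0}
  have c1 : Continuous fun e : ((Fin A → L) × (Fin B → L)) × ((Fin A → L) × (Fin B → L)) =>
      e.1.1 := by fun_prop
  have c2 : Continuous fun e : ((Fin A → L) × (Fin B → L)) × ((Fin A → L) × (Fin B → L)) =>
      e.1.2 := by fun_prop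
  have c3 : Continuous fun e : ((Fin A → L) × (Fin B → L)) × ((Fin A → L) × (Fin B → L)) =>
      e.2.1 := by fun_prop
  have c4 : Continuous fun e : ((Fin A → L) × (Fin B → L)) × ((Fin A → L) × (Fin B → L)) =>
      e.2.2 := by fun_prop
  have hW : W ∈ 𝓝 ((x2, y0), (x0, y0)) := by
    have d1 := (polX_cont c (continuous_const (y := x0)) c1 c2).continuousAt.eventually_ne
      (x := ((x2, y0), (x0, y0))) (y := (0 : L)) hB
    have d2 := (polY_cont c (continuous_const (y := x0)) (continuous_const (y := z))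
      c2).continuousAt.eventually_ne (x := ((x2, y0), (x0, y0))) (y := (0 : L))
      (by
        change polY c x0 z y0 ≠ 0
        rw [polY_comm]
        exact hz1)
    have d3 := (form_cont' c c1 (continuous_const (y := w))).continuousAt.eventually_ne
      (x := ((x2, y0), (x0, y0))) (y := (0 : L)) k4
    have d4 := (polY_cont c c1 c2 (continuous_const (y := w))).continuousAt.eventually_ne
      (x := ((x2, y0), (x0, y0))) (y := (0 : L)) k3
    have d5 := (((form_cont' c c1 (continuous_const (y := w))).mul (polY_cont c c1 c4 c2)).sub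
      ((polY_cont c c1 c2 (continuous_const (y := w))).mul
        (polY_cont c c1 c4 (continuous_const (y := w))))).continuousAt.eventually_ne
      (x := ((x2, y0), (x0, y0))) (y := (0 : L))
      (by
        change form c x2 w * polY c x2 y0 y0 - polY c x2 y0 w * polY c x2 y0 w ≠ 0
        rw [polY_self, h2, mul_zero, mul_zero, zero_sub]
        exact neg_ne_zero.2 (mul_ne_zero k3 k3))
    have d6 := (polX_cont c c1 c3 c4).continuousAt.eventually_ne
      (x := ((x2, y0), (x0, y0))) (y := (0 : L))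
      (by
        change polX c y0 x2 x0 ≠ 0
        rw [polX_comm]
        exact hB)
    filter_upwards [d1, d2, d3, d4, d5, d6] with e a1 a2 a3 a4 a5 a6
    exact ⟨a1, a2, a3, a4, a5, a6⟩
  have hs := solve h0 h2 (by rw [polX_comm]; exact hB) (sub_ne_zero.2 hγ) hW
  filter_upwards [hs] with S hS
  obtain ⟨X, Y, ⟨a1, a2, a3, a4, a5, a6⟩, b1, b2, b3⟩ := hS
  refine ⟨z, Y, Y + (-(polY c X Y w) / form c X w) • w, X, ⟨hz0, hz1⟩, ⟨b1, a2⟩, ⟨b2, a1⟩,
    ⟨line_pt c b2 a3, ?_⟩, ⟨b3, ?_⟩, a6⟩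
  · rw [polY_lin, polY_self, b2, mul_zero, zero_add]
    exact mul_ne_zero (div_ne_zero (neg_ne_zero.2 a4) a3) a4
  · rw [polY_comm, polY_lin]
    intro h
    apply a5
    change form c X w * polY c X S.2 Y - polY c X Y w * polY c X S.2 w = 0
    have a3' : form c X w ≠ 0 := a3
    field_simp at h
    linear_combination h

end loc

/-- The condition on a point `(x, y)` of the hypersurface. -/
def Good {A B : ℕ} {L : Type} [Field L] (c : Fin A → Fin A → Fin B → Fin B → L)
    (T : (Fin A → L) × (Fin B → L)) : Prop :=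
  ∃ x' : Fin A → L, form c x' T.2 = 0 ∧ polX c T.2 T.1 x' ≠ 0 ∧
    ∃ w w' : Fin B → L,
      polY c T.1 T.2 w * polY c x' T.2 w' ≠ polY c T.1 T.2 w' * polY c x' T.2 w

section

variable {K : Type} [Field K] {A B : ℕ} {c : Fin A → Fin A → Fin B → Fin B → K} {ι : Type}
  [Finite ι] {L : ι → Type} [∀ v, NontriviallyNormedField (L v)] [∀ v, CompleteSpace (L v)]
  {σ : ∀ v, K →+* L v}

omit [Finite ι] [∀ v, CompleteSpace (L v)] in
theorem on_closure {T : ∀ v, (Fin A → L v) × (Fin B → L v)} (hT : T ∈ closure (pts c σ)) (v : ι) :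
    form (fun i j k l => σ v (c i j k l)) (T v).1 (T v).2 = 0 := by
  have h1 : IsClosed {T : ∀ v, (Fin A → L v) × (Fin B → L v) |
      form (fun i j k l => σ v (c i j k l)) (T v).1 (T v).2 = 0} :=
    isClosed_eq ((form_cont _).comp (continuous_apply v)) continuous_const
  refine closure_minimal ?_ h1 hT
  rintro _ ⟨x, y, hxy, rfl⟩
  change form (fun i j k l => σ v (c i j k l)) (fun i => σ v (x i)) (fun k => σ v (y k)) = 0
  rw [form_map, hxy, map_zero]

theorem open_main (hσ : DenseRange fun (a : K) (v : ι) => σ v a)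
    {T : ∀ v, (Fin A → L v) × (Fin B → L v)} (hT : T ∈ closure (pts c σ))
    (hG : ∀ v, Good (fun i j k l => σ v (c i j k l)) (T v)) :
    ∃ U ∈ 𝓝 T, ∀ S ∈ U, (∀ v, form (fun i j k l => σ v (c i j k l)) (S v).1 (S v).2 = 0) →
      S ∈ closure (pts c σ) := by
  have h0 := fun v => on_closure hT v
  have hev : ∀ v, ∀ᶠ S : (Fin A → L v) × (Fin B → L v) in 𝓝 (T v),
      ∃ (z Y z' : Fin B → L v) (X : Fin A → L v),
        (form (fun i j k l => σ v (c i j k l)) (T v).1 z = 0 ∧
          polY (fun i j k l => σ v (c i j k l)) (T v).1 (T v).2 z ≠ 0) ∧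
        (form (fun i j k l => σ v (c i j k l)) (T v).1 Y = 0 ∧
          polY (fun i j k l => σ v (c i j k l)) (T v).1 z Y ≠ 0) ∧
        (form (fun i j k l => σ v (c i j k l)) X Y = 0 ∧
          polX (fun i j k l => σ v (c i j k l)) Y (T v).1 X ≠ 0) ∧
        (form (fun i j k l => σ v (c i j k l)) X z' = 0 ∧
          polY (fun i j k l => σ v (c i j k l)) X Y z' ≠ 0) ∧
        (form (fun i j k l => σ v (c i j k l)) X S.2 = 0 ∧
          polY (fun i j k l => σ v (c i j k l)) X z' S.2 ≠ 0) ∧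
        polX (fun i j k l => σ v (c i j k l)) S.2 X S.1 ≠ 0 := by
    intro v
    obtain ⟨x', g1, g2, w, w', g3⟩ := hG v
    exact chain (h0 v) g1 g2 g3
  refine ⟨_, set_pi_mem_nhds (Set.finite_univ) fun v _ => hev v, fun S hS hSX => ?_⟩
  choose z Y z' X k1 k2 k3 k4 k5 k6 using fun v => hS v (Set.mem_univ v)
  have m1 := ymove hσ hT z h0 (fun v => (k1 v).1) (fun v => (k1 v).2)
  have m2 := ymove hσ m1 Y (fun v => (k1 v).1) (fun v => (k2 v).1) (fun v => (k2 v).2)
  have m3 := xmove hσ m2 X (fun v => (k2 v).1) (fun v => (k3 v).1) (fun v => (k3 v).2)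
  have m4 := ymove hσ m3 z' (fun v => (k3 v).1) (fun v => (k4 v).1) (fun v => (k4 v).2)
  have m5 := ymove hσ m4 (fun v => (S v).2) (fun v => (k4 v).1) (fun v => (k5 v).1)
    (fun v => (k5 v).2)
  have m6 := xmove hσ m5 (fun v => (S v).1) (fun v => (k5 v).1) hSX k6
  exact m6

end

end Pool.Agent.R70.BT
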