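import Pool.Agent.R70.BT.Geo
import Pool.Agent.TH729.SQ.Values

/-! The closure of the rational points of hypersurfaces of bidegree (2, 2) in the real points
(helper70). -/

set_option autoImplicit false
set_option maxHeartbeats 400000

open Filter Topology
open Pool.Agent.H581R2 Pool.Agent.TH729.SQ

namespace Pool.Agent.R70.BT

attribute [local irreducible] form

/-- a subset of a semialgebraic set which is relatively open and relatively closed -/
theorem sa_abs {N : ℕ} {R V : Set (Fin N → ℝ)} (hV : SA V)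
    (h : ∀ T ∈ V, T ∈ closure R → ∃ U ∈ 𝓝 T, ∀ S ∈ U, S ∈ V → S ∈ closure R) :
    SA (closure R ∩ V) := by
  set D := closure R with hD
  refine sa_of_lc _ V (D ∩ V) hV Set.inter_subset_right ?_
  refine LC.of_clopen (O := interior {x | x ∈ V → x ∈ D}) (C := D) isOpen_interior
    isClosed_closure ?_ ?_
  · intro x hx
    constructor
    · rintro ⟨hxD, -⟩
      obtain ⟨U, hU, h⟩ := h x hx hxD
      rw [mem_interior_iff_mem_nhds]
      filter_upwards [hU] with z hz hzV
      exact h z hz hzV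
    · intro h
      exact ⟨interior_subset h hx, hx⟩
  · intro x hx
    exact ⟨fun h => h.1, fun h => ⟨h, hx⟩⟩

theorem sa_abs_closure {N : ℕ} {R V : Set (Fin N → ℝ)} (h : SA (closure R ∩ V))
    (hbad : SA (closure (R \ V))) : SA (closure R) := by
  have h1 : closure R = closure (closure R ∩ V) ∪ closure (R \ V) := by
    apply Set.Subset.antisymm
    · rw [← closure_union]
      apply closure_mono
      intro x hx
      by_cases h : x ∈ V
      · exact Or.inl ⟨subset_closure hx, h⟩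
      · exact Or.inr ⟨hx, h⟩
    · refine Set.union_subset (closure_minimal Set.inter_subset_left isClosed_closure)
        (closure_mono Set.diff_subset)
  rw [h1]
  exact SA.union (SA.closure h) hbad

section good

variable {A B : ℕ} {L : Type} [Field L]

theorem good_iff [Infinite L] (c : Fin A → Fin A → Fin B → Fin B → L) (M : Type) [Field M]
    [Algebra L M] {T : (Fin A → L) × (Fin B → L)} (hT : form c T.1 T.2 = 0) :
    GoodOver c M T ↔ ∃ (u u' : Fin A → L) (w w' : Fin B → L), cond c T.1 T.2 u u' w w' ≠ 0 := by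
  constructor
  · intro h
    obtain ⟨x', ⟨h1, h3⟩, x'', h2, h4, w, w', h5⟩ := good_descent c hT h
    obtain ⟨u, u', hu⟩ := cond_ne c hT h1 h2 h3 h4 h5
    exact ⟨u, u', w, w', hu⟩
  · rintro ⟨u, u', w, w', hz⟩
    rw [cond] at hz
    obtain ⟨hz1, hz3⟩ := ne_zero_and_ne_zero_of_mul hz
    obtain ⟨hz1, hz2⟩ := ne_zero_and_ne_zero_of_mul hz1
    have f1 := form_par c hT u
    have f2 := form_par c f1 u'
    have hi := (algebraMap L M).injective
    refine ⟨fun i => algebraMap L M (par c T.2 T.1 u i),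
      fun i => algebraMap L M (par c T.2 (par c T.2 T.1 u) u' i), ?_, ?_, ?_, ?_,
      fun k => algebraMap L M (w k), fun k => algebraMap L M (w' k), ?_⟩
    · rw [form_map, f1, map_zero]
    · rw [form_map, f2, map_zero]
    · rw [polX_map]
      exact (map_ne_zero _).2 hz1
    · rw [polX_map]
      exact (map_ne_zero _).2 hz2
    · rw [polY_map, polY_map, polY_map, polY_map, ← map_mul, ← map_mul]
      exact fun h => sub_ne_zero.1 hz3 (hi h)

end good

section pf

variable {A B : ℕ} {ι : Type}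

theorem pf_rat (r : ℚ) : PF (fun _ : ι → ℝ => algebraMap ℚ ℝ r) := by
  simpa using PF.const (ι := ι) r

theorem pf_form (c : Fin A → Fin A → Fin B → Fin B → ℚ) {f : (ι → ℝ) → Fin A → ℝ}
    {g : (ι → ℝ) → Fin B → ℝ} (hf : ∀ i, PF fun v => f v i) (hg : ∀ k, PF fun v => g v k) :
    PF fun v => form (fun i j k l => algebraMap ℚ ℝ (c i j k l)) (f v) (g v) := by
  unfold form
  exact PF.sum _ fun i _ => PF.sum _ fun j _ => PF.sum _ fun k _ => PF.sum _ fun l _ =>
    (pf_rat _).mul (((hf i).mul (hf j)).mul ((hg k).mul (hg l)))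

theorem pf_polX (c : Fin A → Fin A → Fin B → Fin B → ℚ) {f f' : (ι → ℝ) → Fin A → ℝ}
    {g : (ι → ℝ) → Fin B → ℝ} (hf : ∀ i, PF fun v => f v i) (hf' : ∀ i, PF fun v => f' v i)
    (hg : ∀ k, PF fun v => g v k) :
    PF fun v => polX (fun i j k l => algebraMap ℚ ℝ (c i j k l)) (g v) (f v) (f' v) := by
  unfold polX
  exact ((pf_form c (f := fun v => f v + f' v) (fun i => (hf i).add (hf' i)) hg).sub
    (pf_form c hf hg)).sub (pf_form c hf' hg)

theorem pf_polY (c : Fin A → Fin A → Fin B → Fin B → ℚ) {f : (ι → ℝ) → Fin A → ℝ}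
    {g g' : (ι → ℝ) → Fin B → ℝ} (hf : ∀ i, PF fun v => f v i) (hg : ∀ i, PF fun v => g v i)
    (hg' : ∀ k, PF fun v => g' v k) :
    PF fun v => polY (fun i j k l => algebraMap ℚ ℝ (c i j k l)) (f v) (g v) (g' v) := by
  unfold polY
  exact ((pf_form c (g := fun v => g v + g' v) hf (fun i => (hg i).add (hg' i))).sub
    (pf_form c hf hg)).sub (pf_form c hf hg')

theorem pf_par (c : Fin A → Fin A → Fin B → Fin B → ℚ) {f f' : (ι → ℝ) → Fin A → ℝ}
    {g : (ι → ℝ) → Fin B → ℝ} (hf : ∀ i, PF fun v => f v i) (hf' : ∀ i, PF fun v => f' v i)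
    (hg : ∀ k, PF fun v => g v k) (i : Fin A) :
    PF fun v => par (fun i j k l => algebraMap ℚ ℝ (c i j k l)) (g v) (f v) (f' v) i := by
  unfold par
  exact ((pf_form c hf' hg).mul (hf i)).sub ((pf_polX c hf hf' hg).mul (hf' i))

theorem pf_cond (c : Fin A → Fin A → Fin B → Fin B → ℚ) {f u u' : (ι → ℝ) → Fin A → ℝ}
    {g w w' : (ι → ℝ) → Fin B → ℝ} (hf : ∀ i, PF fun v => f v i) (hg : ∀ k, PF fun v => g v k)
    (hu : ∀ i, PF fun v => u v i) (hu' : ∀ i, PF fun v => u' v i) (hw : ∀ k, PF fun v => w v k)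
    (hw' : ∀ k, PF fun v => w' v k) :
    PF fun v => cond (fun i j k l => algebraMap ℚ ℝ (c i j k l)) (f v) (g v) (u v) (u' v) (w v)
      (w' v) := by
  have h1 := fun i => pf_par c hf hu hg i
  have h2 := fun i => pf_par c h1 hu' hg i
  unfold cond
  exact ((pf_polX c hf h1 hg).mul (pf_polX c h1 h2 hg)).mul
    (((pf_polY c h1 hg hw).mul (pf_polY c h2 hg hw')).sub
      ((pf_polY c h1 hg hw').mul (pf_polY c h2 hg hw)))

/-- the existence of parameters is a semialgebraic condition -/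
theorem sa_ex (c : Fin A → Fin A → Fin B → Fin B → ℚ) {f : (ι → ℝ) → Fin A → ℝ}
    {g : (ι → ℝ) → Fin B → ℝ} (hf : ∀ i, PF fun v => f v i) (hg : ∀ k, PF fun v => g v k) :
    SAP fun v : ι → ℝ => ∃ (u u' : Fin A → ℝ) (w w' : Fin B → ℝ),
      cond (fun i j k l => algebraMap ℚ ℝ (c i j k l)) (f v) (g v) u u' w w' ≠ 0 := by
  let J := (Fin A ⊕ Fin A) ⊕ (Fin B ⊕ Fin B)
  have h1 : SAP fun v : J ⊕ ι → ℝ =>
      cond (fun i j k l => algebraMap ℚ ℝ (c i j k l)) (f fun s => v (Sum.inr s))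
        (g fun s => v (Sum.inr s)) (fun i => v (Sum.inl (Sum.inl (Sum.inl i))))
        (fun i => v (Sum.inl (Sum.inl (Sum.inr i)))) (fun k => v (Sum.inl (Sum.inr (Sum.inl k))))
        (fun k => v (Sum.inl (Sum.inr (Sum.inr k)))) ≠ 0 := by
    refine SAP.not (SAP.eq_zero (pf_cond c ?_ ?_ ?_ ?_ ?_ ?_))
    · exact fun i => (hf i).comp (φ := fun (v : J ⊕ ι → ℝ) s => v (Sum.inr s))
        fun s => PF.coord _
    · exact fun i => (hg i).comp (φ := fun (v : J ⊕ ι → ℝ) s => v (Sum.inr s))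
        fun s => PF.coord _
    · exact fun i => PF.coord _
    · exact fun i => PF.coord _
    · exact fun i => PF.coord _
    · exact fun i => PF.coord _
  refine SAP.congr (SAP.exists_fun J ι _ h1) fun v => ?_
  constructor
  · rintro ⟨u, u', w, w', h⟩
    exact ⟨Sum.elim (Sum.elim u u') (Sum.elim w w'), h⟩
  · rintro ⟨z, h⟩
    exact ⟨_, _, _, _, h⟩

end pf

end Pool.Agent.R70.BT
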