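import Pool.Agent.R70.BT.Mz

/-! The closure of the rational points of hypersurfaces of bidegree (2, 2) in the real points,
second part (helper70). -/

set_option autoImplicit false
set_option maxHeartbeats 400000

open Filter Topology
open Pool.Agent.H581R2 Pool.Agent.TH729.SQ

namespace Pool.Agent.R70.BT

attribute [local irreducible] form

variable (A B : ℕ)

/-- the first group of coordinates -/
def xs {R : Type} (z : Fin (A + B) → R) : Fin A → R := fun i => z (Fin.castAdd B i)

/-- the second group of coordinates -/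
def ys {R : Type} (z : Fin (A + B) → R) : Fin B → R := fun k => z (Fin.natAdd A k)

variable {A B}

/-- the rational zeros of the form, as real points -/
def ratPts (c : Fin A → Fin A → Fin B → Fin B → ℚ) : Set (Fin (A + B) → ℝ) :=
  {z | ∃ r : Fin (A + B) → ℚ, form c (xs A B r) (ys A B r) = 0 ∧ z = fun i => (r i : ℝ)}

/-- the real zeros which satisfy the condition (G), perhaps after an exchange of the two groups of
coordinates -/
def GoodSet (c : Fin A → Fin A → Fin B → Fin B → ℚ) : Set (Fin (A + B) → ℝ) :=
  {z | form (fun i j k l => algebraMap ℚ ℝ (c i j k l)) (xs A B z) (ys A B z) = 0 ∧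
    (GoodOver (fun i j k l => algebraMap ℚ ℝ (c i j k l)) ℂ (xs A B z, ys A B z) ∨
      GoodOver (sw fun i j k l => algebraMap ℚ ℝ (c i j k l)) ℂ (ys A B z, xs A B z))}

theorem sa_goodSet (c : Fin A → Fin A → Fin B → Fin B → ℚ) : SA (GoodSet c) := by
  have hx : ∀ i, PF fun v : Fin (A + B) → ℝ => xs A B v i := fun i => PF.coord _
  have hy : ∀ k, PF fun v : Fin (A + B) → ℝ => ys A B v k := fun k => PF.coord _
  have h1 : SAP fun z : Fin (A + B) → ℝ =>
      form (fun i j k l => algebraMap ℚ ℝ (c i j k l)) (xs A B z) (ys A B z) = 0 :=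
    SAP.eq_zero (pf_form c hx hy)
  have h2 := sa_ex c hx hy
  have h3 := sa_ex (sw c) hy hx
  refine SAP.congr (SAP.and h1 (SAP.or h2 h3)) fun z => ?_
  refine and_congr_right fun h0 => ?_
  have h0' : form (sw fun i j k l => algebraMap ℚ ℝ (c i j k l)) (ys A B z) (xs A B z) = 0 := by
    rw [form_sw]
    exact h0
  exact or_congr (good_iff _ ℂ (T := (xs A B z, ys A B z)) h0)
    (good_iff _ ℂ (T := (ys A B z, xs A B z)) h0')

theorem cont_pair : Continuous fun (z : Fin (A + B) → ℝ) (_ : Unit) => (xs A B z, ys A B z) :=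
  continuous_pi fun _ => (continuous_pi fun i => continuous_apply _).prodMk
    (continuous_pi fun k => continuous_apply _)

theorem cont_append :
    Continuous fun P : Unit → (Fin A → ℝ) × (Fin B → ℝ) => Fin.append (P ()).1 (P ()).2 := by
  refine continuous_pi fun i => ?_
  refine Fin.addCases (fun i => ?_) (fun k => ?_) i
  · simp only [Fin.append_left]
    fun_prop
  · simp only [Fin.append_right]
    fun_prop

theorem mem_closure_unit (c : Fin A → Fin A → Fin B → Fin B → ℚ) (T : Fin (A + B) → ℝ) :
    T ∈ closure (ratPts c) ↔ (fun _ : Unit => (xs A B T, ys A B T)) ∈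
      closure (pts c (L := fun _ : Unit => ℝ) (fun _ => algebraMap ℚ ℝ)) := by
  constructor
  · intro h
    refine map_mem_closure cont_pair h ?_
    rintro _ ⟨r, hr, rfl⟩
    exact ⟨_, _, hr, rfl⟩
  · intro h
    have h1 := map_mem_closure (t := ratPts c) cont_append h (by
      rintro _ ⟨x, y, hxy, rfl⟩
      refine ⟨Fin.append x y, ?_, ?_⟩
      · have e1 : xs A B (Fin.append x y) = x := funext fun i => Fin.append_left x y i
        have e2 : ys A B (Fin.append x y) = y := funext fun k => Fin.append_right x y k
        rw [e1, e2]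
        exact hxy
      · funext i
        refine Fin.addCases (fun i => ?_) (fun k => ?_) i
        · change (Fin.append (fun i => algebraMap ℚ ℝ (x i)) (fun k => algebraMap ℚ ℝ (y k)) :
            Fin (A + B) → ℝ) (Fin.castAdd B i) = _
          rw [Fin.append_left, Fin.append_left]
          rfl
        · change (Fin.append (fun i => algebraMap ℚ ℝ (x i)) (fun k => algebraMap ℚ ℝ (y k)) :
            Fin (A + B) → ℝ) (Fin.natAdd A k) = _
          rw [Fin.append_right, Fin.append_right]
          rfl)
    have h2 : Fin.append (xs A B T) (ys A B T) = T := by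
      funext i
      refine Fin.addCases (fun i => ?_) (fun k => ?_) i
      · rw [Fin.append_left]
        rfl
      · rw [Fin.append_right]
        rfl
    rw [← h2]
    exact h1

theorem open_real (c : Fin A → Fin A → Fin B → Fin B → ℚ) {T : Fin (A + B) → ℝ}
    (hG : T ∈ GoodSet c) (hcl : T ∈ closure (ratPts c)) :
    ∃ U ∈ 𝓝 T, ∀ S ∈ U, S ∈ GoodSet c → S ∈ closure (ratPts c) := by
  have hd : DenseRange fun (a : ℚ) (_ : Unit) => algebraMap ℚ ℝ a := by
    have h1 : DenseRange (algebraMap ℚ ℝ) := Rat.denseRange_cast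
    exact DenseRange.comp (f := algebraMap ℚ ℝ) (g := fun (x : ℝ) (_ : Unit) => x)
      (Function.Surjective.denseRange fun P => ⟨P (), rfl⟩) h1 (continuous_pi fun _ => continuous_id)
  have hcl' := (mem_closure_unit c T).1 hcl
  have key : Interior c (L := fun _ : Unit => ℝ) (fun _ => algebraMap ℚ ℝ)
      (fun _ => (xs A B T, ys A B T)) := by
    obtain ⟨h0, hG | hG⟩ := hG
    · obtain ⟨x, h1, h2⟩ := good_descent (fun i j k l => algebraMap ℚ ℝ (c i j k l))
        (T := (xs A B T, ys A B T)) h0 hG
      exact nice_main (L := fun _ : Unit => ℝ) hd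
        (Nice.moveX _ (fun _ => x) (fun _ => h1) (Nice.good _ fun _ => h2)) hcl'
    · have h0' : form (sw fun i j k l => algebraMap ℚ ℝ (c i j k l)) (ys A B T) (xs A B T) = 0 := by
        rw [form_sw]
        exact h0
      obtain ⟨y, h1, h2⟩ := good_descent (sw fun i j k l => algebraMap ℚ ℝ (c i j k l))
        (T := (ys A B T, xs A B T)) h0' hG
      have h3 : form (fun i j k l => algebraMap ℚ ℝ (c i j k l)) (xs A B T) y = 0 ∧
          polY (fun i j k l => algebraMap ℚ ℝ (c i j k l)) (xs A B T) (ys A B T) y ≠ 0 := by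
        refine ⟨?_, ?_⟩
        · rw [← form_sw]
          exact h1.1
        · rw [polY_sw]
          exact h1.2
      exact nice_main (L := fun _ : Unit => ℝ) hd
        (Nice.moveY _ (fun _ => y) (fun _ => h3) (Nice.good' _ fun _ => h2)) hcl'
  obtain ⟨U, hU, h⟩ := key
  refine ⟨_, cont_pair.continuousAt hU, fun S hS hSX => ?_⟩
  rw [mem_closure_unit]
  exact h _ hS fun _ => hSX.1

theorem sa_inter (c : Fin A → Fin A → Fin B → Fin B → ℚ) :
    SA (closure (ratPts c) ∩ GoodSet c) :=
  sa_abs (sa_goodSet c) fun _ hT hcl => open_real c hT hcl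

theorem polX_zero {R : Type*} [CommRing R] (c : Fin A → Fin A → Fin B → Fin B → R)
    (y : Fin B → R) (x : Fin A → R) : polX c y 0 x = 0 := by
  rw [polX, zero_add]
  have : form c (0 : Fin A → R) y = 0 := by simp [form]
  rw [this]
  ring

theorem polX_zero' {R : Type*} [CommRing R] (c : Fin A → Fin A → Fin B → Fin B → R)
    (x x' : Fin A → R) : polX c 0 x x' = 0 := by
  have h : ∀ x : Fin A → R, form c x (0 : Fin B → R) = 0 := fun x => by simp [form]
  rw [polX, h, h, h]
  ring

/-- zero vectors do not satisfy the condition -/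
theorem zero_not_good (c : Fin A → Fin A → Fin B → Fin B → ℚ) {z : Fin (A + B) → ℝ}
    (h : xs A B z = 0 ∨ ys A B z = 0) : z ∉ GoodSet c := by
  rintro ⟨-, hG⟩
  have key : ∀ {A B : ℕ} (c : Fin A → Fin A → Fin B → Fin B → ℝ) {x : Fin A → ℝ} {y : Fin B → ℝ},
      x = 0 ∨ y = 0 → ¬ GoodOver c ℂ (x, y) := by
    intro A B c x y h
    rintro ⟨x', x'', -, -, h3, -⟩
    apply h3
    rcases h with rfl | rfl
    · have : (fun i => algebraMap ℝ ℂ ((0 : Fin A → ℝ) i)) = 0 := by
        funext i
        simp
      change polX _ _ (fun i => algebraMap ℝ ℂ ((0 : Fin A → ℝ) i)) _ = 0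
      rw [this]
      exact polX_zero _ _ _
    · have : (fun i => algebraMap ℝ ℂ ((0 : Fin B → ℝ) i)) = 0 := by
        funext i
        simp
      change polX _ (fun i => algebraMap ℝ ℂ ((0 : Fin B → ℝ) i)) _ _ = 0
      rw [this]
      exact polX_zero' _ _ _
  rcases hG with hG | hG
  · exact key _ h hG
  · exact key _ h.symm hG

/-- the closure of the set of the rational points with `x = 0` or `y = 0` -/
theorem sa_zero (c : Fin A → Fin A → Fin B → Fin B → ℚ) :
    SA (closure {z ∈ ratPts c | xs A B z = 0 ∨ ys A B z = 0}) := by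
  have h1 : closure {z ∈ ratPts c | xs A B z = 0 ∨ ys A B z = 0} =
      {z | xs A B z = 0 ∨ ys A B z = 0} := by
    have cx : Continuous fun z : Fin (A + B) → ℝ => xs A B z :=
      continuous_pi fun i => continuous_apply _
    have cy : Continuous fun z : Fin (A + B) → ℝ => ys A B z :=
      continuous_pi fun i => continuous_apply _
    apply Set.Subset.antisymm
    · refine closure_minimal (fun z hz => hz.2) ?_
      exact (isClosed_eq cx continuous_const).union (isClosed_eq cy continuous_const)
    · have hd : ∀ n : ℕ, DenseRange fun (r : Fin n → ℚ) (i : Fin n) => (r i : ℝ) := fun n =>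
        DenseRange.piMap fun _ => Rat.denseRange_cast
      rintro z (hz | hz)
      · have hc : Continuous fun y : Fin B → ℝ => (Fin.append (0 : Fin A → ℝ) y : Fin (A + B) → ℝ) :=
          cont_append.comp (g := fun P : Unit → (Fin A → ℝ) × (Fin B → ℝ) =>
            (Fin.append (P ()).1 (P ()).2 : Fin (A + B) → ℝ))
            (f := fun (y : Fin B → ℝ) (_ : Unit) => ((0 : Fin A → ℝ), y))
            (continuous_pi fun _ => continuous_const.prodMk continuous_id)
        have h2 : z = Fin.append (0 : Fin A → ℝ) (ys A B z) := by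
          funext i
          refine Fin.addCases (fun i => ?_) (fun k => ?_) i
          · rw [Fin.append_left]
            exact congrFun hz i
          · rw [Fin.append_right]
            rfl
        rw [h2]
        refine map_mem_closure (f := fun y : Fin B → ℝ =>
          (Fin.append (0 : Fin A → ℝ) y : Fin (A + B) → ℝ)) hc ((hd B) (ys A B z)) ?_
        rintro _ ⟨r, rfl⟩
        refine ⟨⟨Fin.append 0 r, ?_, ?_⟩, Or.inl ?_⟩
        · have e1 : xs A B (Fin.append (0 : Fin A → ℚ) r) = 0 :=
            funext fun i => Fin.append_left _ _ i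
          rw [e1, form]
          simp
        · funext i
          refine Fin.addCases (fun i => ?_) (fun k => ?_) i
          · change (Fin.append (0 : Fin A → ℝ) (fun k => (r k : ℝ)) : Fin (A + B) → ℝ)
              (Fin.castAdd B i) = _
            rw [Fin.append_left, Fin.append_left]
            simp
          · change (Fin.append (0 : Fin A → ℝ) (fun k => (r k : ℝ)) : Fin (A + B) → ℝ)
              (Fin.natAdd A k) = _
            rw [Fin.append_right, Fin.append_right]
        · exact funext fun i => Fin.append_left _ _ i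
      · have hc : Continuous fun x : Fin A → ℝ => (Fin.append x (0 : Fin B → ℝ) : Fin (A + B) → ℝ) :=
          cont_append.comp (g := fun P : Unit → (Fin A → ℝ) × (Fin B → ℝ) =>
            (Fin.append (P ()).1 (P ()).2 : Fin (A + B) → ℝ))
            (f := fun (x : Fin A → ℝ) (_ : Unit) => (x, (0 : Fin B → ℝ)))
            (continuous_pi fun _ => continuous_id.prodMk continuous_const)
        have h2 : z = Fin.append (xs A B z) (0 : Fin B → ℝ) := by
          funext i
          refine Fin.addCases (fun i => ?_) (fun k => ?_) i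
          · rw [Fin.append_left]
            rfl
          · rw [Fin.append_right]
            exact congrFun hz k
        rw [h2]
        refine map_mem_closure (f := fun x : Fin A → ℝ =>
          (Fin.append x (0 : Fin B → ℝ) : Fin (A + B) → ℝ)) hc ((hd A) (xs A B z)) ?_
        rintro _ ⟨r, rfl⟩
        refine ⟨⟨Fin.append r 0, ?_, ?_⟩, Or.inr ?_⟩
        · have e1 : ys A B (Fin.append r (0 : Fin B → ℚ)) = 0 :=
            funext fun i => Fin.append_right _ _ i
          rw [e1, form]
          simp
        · funext i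
          refine Fin.addCases (fun i => ?_) (fun k => ?_) i
          · change (Fin.append (fun k => (r k : ℝ)) (0 : Fin B → ℝ) : Fin (A + B) → ℝ)
              (Fin.castAdd B i) = _
            rw [Fin.append_left, Fin.append_left]
          · change (Fin.append (fun k => (r k : ℝ)) (0 : Fin B → ℝ) : Fin (A + B) → ℝ)
              (Fin.natAdd A k) = _
            rw [Fin.append_right, Fin.append_right]
            simp
        · exact funext fun i => Fin.append_right _ _ i
  rw [h1]
  have h2 : SAP fun z : Fin (A + B) → ℝ => (∀ i, z (Fin.castAdd B i) = 0) ∨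
      ∀ k, z (Fin.natAdd A k) = 0 :=
    SAP.or (SAP.forall_fin fun i => SAP.eq_zero (PF.coord _))
      (SAP.forall_fin fun k => SAP.eq_zero (PF.coord _))
  refine SAP.congr h2 fun z => ?_
  exact or_congr ⟨fun h => congrFun h, fun h => funext h⟩ ⟨fun h => congrFun h, fun h => funext h⟩

theorem sa_closure (c : Fin A → Fin A → Fin B → Fin B → ℚ)
    (h : SA (closure {z ∈ ratPts c | xs A B z ≠ 0 ∧ ys A B z ≠ 0 ∧ z ∉ GoodSet c})) :
    SA (closure (ratPts c)) := by
  refine sa_abs_closure (sa_inter c) ?_
  have h1 : ratPts c \ GoodSet c = {z ∈ ratPts c | xs A B z ≠ 0 ∧ ys A B z ≠ 0 ∧ z ∉ GoodSet c} ∪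
      {z ∈ ratPts c | xs A B z = 0 ∨ ys A B z = 0} := by
    ext z
    constructor
    · rintro ⟨h1, h2⟩
      by_cases hx : xs A B z = 0
      · exact Or.inr ⟨h1, Or.inl hx⟩
      by_cases hy : ys A B z = 0
      · exact Or.inr ⟨h1, Or.inr hy⟩
      exact Or.inl ⟨h1, hx, hy, h2⟩
    · rintro (⟨h1, -, -, h2⟩ | ⟨h1, h2⟩)
      · exact ⟨h1, h2⟩
      · exact ⟨h1, fun h => zero_not_good c h2 h⟩
  rw [h1, closure_union]
  exact SA.union h (sa_zero c)

end Pool.Agent.R70.BT
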