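import Pool.Agent.R70.BT.Main

/-! Points which are joined to good points by moves (helper70). -/

set_option autoImplicit false
set_option maxHeartbeats 400000

open Filter Topology

namespace Pool.Agent.R70.BT

attribute [local irreducible] form

/-- the equation can be solved near a regular point -/
theorem lift {L : Type} [NontriviallyNormedField L] [CompleteSpace L] {A B : ℕ}
    {c : Fin A → Fin A → Fin B → Fin B → L} {x3 x0 : Fin A → L} {y0 : Fin B → L}
    (h : form c x3 y0 = 0) (hB : polX c y0 x3 x0 ≠ 0)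
    {W : Set ((Fin A → L) × ((Fin A → L) × (Fin B → L)))} (hW : W ∈ 𝓝 (x3, (x0, y0))) :
    ∀ᶠ S : (Fin A → L) × (Fin B → L) in 𝓝 (x0, y0), ∃ X : Fin A → L,
      (X, S) ∈ W ∧ form c X S.2 = 0 := by
  obtain ⟨D, hD, hD'⟩ := form_strict c (x3, y0)
  let E := (Fin A → L) × ((Fin A → L) × (Fin B → L))
  let pX : E →L[L] (Fin A → L) := ContinuousLinearMap.fst L _ _
  let pS : E →L[L] ((Fin A → L) × (Fin B → L)) := ContinuousLinearMap.snd L _ _
  let q : E →L[L] ((Fin A → L) × (Fin B → L)) :=
    pX.prod ((ContinuousLinearMap.snd L _ _).comp pS)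
  let b : E := (x3, (x0, y0))
  let H : E → L × ((Fin A → L) × (Fin B → L)) := fun e => (form c (q e).1 (q e).2, pS e)
  let H' : E →L[L] L × ((Fin A → L) × (Fin B → L)) := (D.comp q).prod pS
  have g : HasStrictFDerivAt (fun e : E => form c (q e).1 (q e).2) (D.comp q) b :=
    HasStrictFDerivAt.comp (g := fun P : (Fin A → L) × (Fin B → L) => form c P.1 P.2)
      (f := fun e : E => q e) b hD q.hasStrictFDerivAt
  have hH : HasStrictFDerivAt H H' b := g.prodMk pS.hasStrictFDerivAt
  have hsurj : H'.range = ⊤ := by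
    rw [eq_top_iff]
    rintro ⟨r, ⟨a, w⟩⟩ -
    let t := (r - polY c x3 y0 w) / polX c y0 x3 x0
    refine ⟨(t • x0, (a, w)), ?_⟩
    change (D (t • x0, w), (a, w)) = _
    rw [hD']
    change (polX c y0 x3 (t • x0) + polY c x3 y0 w, (a, w)) = _
    rw [polX_smul, div_mul_cancel₀ _ hB, sub_add_cancel]
  have hmap := hH.map_nhds_eq_of_surj hsurj
  have hHb : H b = (0, (x0, y0)) := by
    change (form c x3 y0, (x0, y0)) = _
    rw [h]
  rw [hHb] at hmap
  have hIm : H '' W ∈ 𝓝 ((0, (x0, y0)) : L × ((Fin A → L) × (Fin B → L))) := by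
    rw [← hmap]
    exact image_mem_map hW
  have hcont : Continuous fun S : (Fin A → L) × (Fin B → L) =>
      ((0, S) : L × ((Fin A → L) × (Fin B → L))) := by fun_prop
  have hev := hcont.continuousAt (x := (x0, y0)) hIm
  filter_upwards [hev] with S hS
  obtain ⟨⟨X, S'⟩, hWS, heq⟩ := hS
  have k1 : S' = S := congrArg Prod.snd heq
  subst k1
  have k2 : form c X S'.2 = 0 := congrArg Prod.fst heq
  exact ⟨X, hWS, k2⟩

/-- The systems of points `T v` from which one gets to good points by moves on the quadrics of the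
two fibrations (the same kinds of moves for all `v`): (1) all `T v` are good; (2) all `T v` are good
after an exchange of the two groups of variables; (3) and (4): one can change the first group of
variables, or the second, such that the old and the new point are not conjugate with respect to the
quadric on which they lie, and gets a system with this property. -/
inductive Nice {A B : ℕ} {ι : Type} {L : ι → Type} [∀ v, Field (L v)]
    (c : ∀ v, Fin A → Fin A → Fin B → Fin B → L v) : (∀ v, (Fin A → L v) × (Fin B → L v)) → Prop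
  | good (T : ∀ v, (Fin A → L v) × (Fin B → L v)) (h : ∀ v, Good (c v) (T v)) : Nice c T
  | good' (T : ∀ v, (Fin A → L v) × (Fin B → L v)) (h : ∀ v, Good (sw (c v)) (T v).swap) :
      Nice c T
  | moveX (T : ∀ v, (Fin A → L v) × (Fin B → L v)) (x : ∀ v, Fin A → L v)
      (h : ∀ v, form (c v) (x v) (T v).2 = 0 ∧ polX (c v) (T v).2 (T v).1 (x v) ≠ 0)
      (h' : Nice c fun v => (x v, (T v).2)) : Nice c T
  | moveY (T : ∀ v, (Fin A → L v) × (Fin B → L v)) (y : ∀ v, Fin B → L v)
      (h : ∀ v, form (c v) (T v).1 (y v) = 0 ∧ polY (c v) (T v).1 (T v).2 (y v) ≠ 0)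
      (h' : Nice c fun v => ((T v).1, y v)) : Nice c T

section

variable {K : Type} [Field K] {ι : Type} [Finite ι] {L : ι → Type}
  [∀ v, NontriviallyNormedField (L v)] [∀ v, CompleteSpace (L v)] {σ : ∀ v, K →+* L v}

/-- `T` is an interior point of the closure of the `K`-points. -/
def Interior {A B : ℕ} (c : Fin A → Fin A → Fin B → Fin B → K) (σ : ∀ v, K →+* L v)
    (T : ∀ v, (Fin A → L v) × (Fin B → L v)) : Prop :=
  ∃ U ∈ 𝓝 T, ∀ S ∈ U, (∀ v, form (fun i j k l => σ v (c i j k l)) (S v).1 (S v).2 = 0) →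
    S ∈ closure (pts c σ)

omit [∀ v, CompleteSpace (L v)] in
theorem Interior.sw {A B : ℕ} {c : Fin A → Fin A → Fin B → Fin B → K}
    {T : ∀ v, (Fin A → L v) × (Fin B → L v)} (h : Interior (BT.sw c) σ fun v => (T v).swap) :
    Interior c σ T := by
  obtain ⟨U, hU, h⟩ := h
  have hc : Continuous fun (S : ∀ v, (Fin A → L v) × (Fin B → L v)) (v : ι) => (S v).swap :=
    continuous_pi fun v => continuous_swap.comp (continuous_apply v)
  refine ⟨_, hc.continuousAt hU, fun S hS hSX => ?_⟩
  rw [pts_sw]
  refine h _ hS fun v => ?_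
  exact (form_sw (fun i j k l => σ v (c i j k l)) (S v).1 (S v).2).trans (hSX v)

/-- **A move to an interior point.** -/
theorem Interior.moveX {A B : ℕ} {c : Fin A → Fin A → Fin B → Fin B → K}
    (hσ : DenseRange fun (a : K) (v : ι) => σ v a)
    {T : ∀ v, (Fin A → L v) × (Fin B → L v)} {x : ∀ v, Fin A → L v}
    (h : ∀ v, form (fun i j k l => σ v (c i j k l)) (x v) (T v).2 = 0 ∧
      polX (fun i j k l => σ v (c i j k l)) (T v).2 (T v).1 (x v) ≠ 0)
    (h' : Interior c σ fun v => (x v, (T v).2)) : Interior c σ T := by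
  have : Fintype ι := Fintype.ofFinite ι
  obtain ⟨U, hU, hU'⟩ := h'
  obtain ⟨ε, hε, hb⟩ := Metric.mem_nhds_iff.1 hU
  have hev : ∀ v, ∀ᶠ S : (Fin A → L v) × (Fin B → L v) in 𝓝 (T v), ∃ X : Fin A → L v,
      (X, S) ∈ {e : (Fin A → L v) × ((Fin A → L v) × (Fin B → L v)) |
        dist (e.1, e.2.2) (x v, (T v).2) < ε ∧
          polX (fun i j k l => σ v (c i j k l)) e.2.2 e.1 e.2.1 ≠ 0} ∧
      form (fun i j k l => σ v (c i j k l)) X S.2 = 0 := by
    intro v
    have hB : polX (fun i j k l => σ v (c i j k l)) (T v).2 (x v) (T v).1 ≠ 0 := by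
      rw [polX_comm]
      exact (h v).2
    refine lift (x3 := x v) (x0 := (T v).1) (y0 := (T v).2) (h v).1 hB ?_
    have c1 : Continuous fun e : (Fin A → L v) × ((Fin A → L v) × (Fin B → L v)) => e.1 := by
      fun_prop
    have c2 : Continuous fun e : (Fin A → L v) × ((Fin A → L v) × (Fin B → L v)) => e.2.1 := by
      fun_prop
    have c3 : Continuous fun e : (Fin A → L v) × ((Fin A → L v) × (Fin B → L v)) => e.2.2 := by
      fun_prop
    have d1 : ∀ᶠ e : (Fin A → L v) × ((Fin A → L v) × (Fin B → L v)) in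
        𝓝 (x v, ((T v).1, (T v).2)), dist (e.1, e.2.2) (x v, (T v).2) < ε := by
      have hc : Continuous fun e : (Fin A → L v) × ((Fin A → L v) × (Fin B → L v)) =>
          dist (e.1, e.2.2) (x v, (T v).2) := by fun_prop
      refine hc.continuousAt.eventually_lt continuousAt_const ?_
      change dist (x v, (T v).2) (x v, (T v).2) < ε
      rw [dist_self]
      exact hε
    have d2 := (polX_cont (fun i j k l => σ v (c i j k l)) c1 c2 c3).continuousAt.eventually_ne
      (x := (x v, ((T v).1, (T v).2))) (y := (0 : L v)) hB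
    filter_upwards [d1, d2] with e a1 a2
    exact ⟨a1, a2⟩
  refine ⟨_, set_pi_mem_nhds (Set.finite_univ) fun v _ => hev v, fun S hS hSX => ?_⟩
  choose X k1 k2 using fun v => hS v (Set.mem_univ v)
  have m1 : (fun v => (X v, (S v).2)) ∈ closure (pts c σ) := by
    refine hU' _ (hb ?_) k2
    rw [Metric.mem_ball, dist_pi_lt_iff hε]
    exact fun v => (k1 v).1
  exact xmove hσ m1 (fun v => (S v).1) k2 hSX fun v => (k1 v).2

/-- **The closure of the rational points is open at all the nice points.** -/
theorem nice_main {A B : ℕ} {c : Fin A → Fin A → Fin B → Fin B → K}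
    (hσ : DenseRange fun (a : K) (v : ι) => σ v a) {T : ∀ v, (Fin A → L v) × (Fin B → L v)}
    (hN : Nice (fun v i j k l => σ v (c i j k l)) T) (hT : T ∈ closure (pts c σ)) :
    Interior c σ T := by
  induction hN with
  | good T h => exact open_main hσ hT h
  | good' T h =>
    refine Interior.sw ?_
    exact open_main (c := BT.sw c) hσ ((pts_sw c T).1 hT) h
  | moveX T x h h' ih =>
    exact Interior.moveX hσ h (ih (xmove hσ hT x (fun v => on_closure hT v) (fun v => (h v).1)
      fun v => (h v).2))
  | moveY T y h h' ih =>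
    have hi := ih (ymove hσ hT y (fun v => on_closure hT v) (fun v => (h v).1) fun v => (h v).2)
    refine Interior.sw ?_
    refine Interior.moveX (c := BT.sw c) hσ (T := fun v => (T v).swap) (x := y) (fun v => ?_) ?_
    · refine ⟨(form_sw (fun i j k l => σ v (c i j k l)) (T v).1 (y v)).trans (h v).1, ?_⟩
      have := (h v).2
      rw [polY_sw] at this
      exact this
    · refine Interior.sw ?_
      exact hi

end

end Pool.Agent.R70.BT
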