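import Pool.Agent.R70.BT.Form

/-! The closure of the rational points of a hypersurface of bidegree (2, 2) is stable under moves
along the quadrics with local parameters (helper70). -/

set_option autoImplicit false
set_option maxHeartbeats 400000

open Filter Topology

namespace Pool.Agent.R70.BT

/-- The set of the `K`-points of `∑ c_ijkl x_i x_j y_k y_l = 0` in the product of the sets of the
`L v`-points. -/
def pts {K : Type} [Field K] {A B : ℕ} (c : Fin A → Fin A → Fin B → Fin B → K) {ι : Type}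
    {L : ι → Type} [∀ v, Field (L v)] (σ : ∀ v, K →+* L v) :
    Set (∀ v, (Fin A → L v) × (Fin B → L v)) :=
  {S | ∃ (x : Fin A → K) (y : Fin B → K), form c x y = 0 ∧
    S = fun v => (fun i => σ v (x i), fun k => σ v (y k))}

section

variable {F : Type} [NontriviallyNormedField F] {A B : ℕ}

theorem form_cont (c : Fin A → Fin A → Fin B → Fin B → F) :
    Continuous fun P : (Fin A → F) × (Fin B → F) => form c P.1 P.2 := by
  unfold form
  fun_prop

attribute [local irreducible] form

theorem form_cont' {E : Type} [TopologicalSpace E] (c : Fin A → Fin A → Fin B → Fin B → F)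
    {f : E → Fin A → F} {g : E → Fin B → F} (hf : Continuous f) (hg : Continuous g) :
    Continuous fun e => form c (f e) (g e) :=
  Continuous.comp (g := fun P : (Fin A → F) × (Fin B → F) => form c P.1 P.2)
    (f := fun e => (f e, g e)) (form_cont c) (hf.prodMk hg)

theorem polX_cont {E : Type} [TopologicalSpace E] (c : Fin A → Fin A → Fin B → Fin B → F)
    {f f' : E → Fin A → F} {g : E → Fin B → F} (hf : Continuous f) (hf' : Continuous f')
    (hg : Continuous g) : Continuous fun e => polX c (g e) (f e) (f' e) := by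
  unfold polX
  exact ((form_cont' c (hf.add hf') hg).sub (form_cont' c hf hg)).sub (form_cont' c hf' hg)

end

section

attribute [local irreducible] form

variable {K : Type} [Field K] {A B : ℕ} {c : Fin A → Fin A → Fin B → Fin B → K} {ι : Type}
  [Finite ι] {L : ι → Type} [∀ v, NontriviallyNormedField (L v)] {σ : ∀ v, K →+* L v}

theorem dense_vec (hσ : DenseRange fun (a : K) (v : ι) => σ v a) (n : ℕ) :
    DenseRange fun (a : Fin n → K) (v : ι) (l : Fin n) => σ v (a l) := by
  have h1 : DenseRange (Pi.map fun (_ : Fin n) (a : K) (v : ι) => σ v a) :=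
    DenseRange.piMap fun _ => hσ
  have h2 : Continuous fun (b : Fin n → ∀ v, L v) (v : ι) (l : Fin n) => b l v :=
    continuous_pi fun v => continuous_pi fun l => (continuous_apply v).comp (continuous_apply l)
  have h3 : Function.Surjective fun (b : Fin n → ∀ v, L v) (v : ι) (l : Fin n) => b l v :=
    fun b => ⟨fun l v => b v l, rfl⟩
  exact h3.denseRange.comp h1 h2

/-- **Moves in the first group of variables.** -/
theorem xmove (hσ : DenseRange fun (a : K) (v : ι) => σ v a)
    {P : ∀ v, (Fin A → L v) × (Fin B → L v)} (hP : P ∈ closure (pts c σ))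
    (x' : ∀ v, Fin A → L v)
    (h0 : ∀ v, form (fun i j k l => σ v (c i j k l)) (P v).1 (P v).2 = 0)
    (h1 : ∀ v, form (fun i j k l => σ v (c i j k l)) (x' v) (P v).2 = 0)
    (hB : ∀ v, polX (fun i j k l => σ v (c i j k l)) (P v).2 (P v).1 (x' v) ≠ 0) :
    (fun v => (x' v, (P v).2)) ∈ closure (pts c σ) := by
  classical
  rcases isEmpty_or_nonempty ι with hι | ⟨⟨v₀⟩⟩
  · have : (fun v => (x' v, (P v).2)) = P := Subsingleton.elim _ _
    rwa [this]
  let cv : ∀ v, Fin A → Fin A → Fin B → Fin B → L v := fun v i j k l => σ v (c i j k l)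
  let u : ∀ v, Fin A → L v := fun v => x' v + (-1 : L v) • (P v).1
  have hfu : ∀ v, form (cv v) (u v) (P v).2 = - polX (cv v) (P v).2 (P v).1 (x' v) := by
    intro v
    change form (cv v) (x' v + (-1 : L v) • (P v).1) (P v).2 = _
    rw [form_line, show form (cv v) (x' v) (P v).2 = 0 from h1 v,
      show form (cv v) (P v).1 (P v).2 = 0 from h0 v, polX_comm]
    ring
  have hpu : ∀ v, polX (cv v) (P v).2 (P v).1 (u v) = polX (cv v) (P v).2 (P v).1 (x' v) := by
    intro v
    change polX (cv v) (P v).2 (P v).1 (x' v + (-1 : L v) • (P v).1) = _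
    rw [polX_lin, polX_self, show form (cv v) (P v).1 (P v).2 = 0 from h0 v]
    ring
  let Ψ : (∀ v, Fin A → L v) × (∀ v, (Fin A → L v) × (Fin B → L v)) →
      (∀ v, (Fin A → L v) × (Fin B → L v)) := fun q v =>
    ((q.2 v).1 + (-(polX (cv v) (q.2 v).2 (q.2 v).1 (q.1 v)) /
      form (cv v) (q.1 v) (q.2 v).2) • q.1 v, (q.2 v).2)
  have hΨ : Ψ (u, P) = fun v => (x' v, (P v).2) := by
    funext v
    change ((P v).1 + (-(polX (cv v) (P v).2 (P v).1 (u v)) /
      form (cv v) (u v) (P v).2) • u v, (P v).2) = _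
    rw [hfu, hpu, div_self (neg_ne_zero.2 (hB v)), one_smul]
    ext i
    · change (P v).1 i + (x' v i + (-1 : L v) * (P v).1 i) = x' v i
      ring
    · rfl
  have hc1 : ∀ v, Continuous fun q : (∀ v, Fin A → L v) × (∀ v, (Fin A → L v) × (Fin B → L v)) =>
      (q.2 v).1 := fun v => by fun_prop
  have hc2 : ∀ v, Continuous fun q : (∀ v, Fin A → L v) × (∀ v, (Fin A → L v) × (Fin B → L v)) =>
      (q.2 v).2 := fun v => by fun_prop
  have hc3 : ∀ v, Continuous fun q : (∀ v, Fin A → L v) × (∀ v, (Fin A → L v) × (Fin B → L v)) =>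
      q.1 v := fun v => by fun_prop
  have hcf : ∀ v, Continuous fun q : (∀ v, Fin A → L v) × (∀ v, (Fin A → L v) × (Fin B → L v)) =>
      form (cv v) (q.1 v) (q.2 v).2 := fun v => form_cont' _ (hc3 v) (hc2 v)
  have hcp : ∀ v, Continuous fun q : (∀ v, Fin A → L v) × (∀ v, (Fin A → L v) × (Fin B → L v)) =>
      polX (cv v) (q.2 v).2 (q.2 v).1 (q.1 v) := fun v => polX_cont _ (hc1 v) (hc3 v) (hc2 v)
  have hne : ∀ v, form (cv v) (u v) (P v).2 ≠ 0 := fun v => by
    rw [hfu]
    exact neg_ne_zero.2 (hB v)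
  have hΨc : ContinuousAt Ψ (u, P) := by
    refine continuousAt_pi.2 fun v => ContinuousAt.prodMk ?_ (hc2 v).continuousAt
    have h3 : ContinuousAt (fun q : (∀ v, Fin A → L v) × (∀ v, (Fin A → L v) × (Fin B → L v)) =>
        -(polX (cv v) (q.2 v).2 (q.2 v).1 (q.1 v)) / form (cv v) (q.1 v) (q.2 v).2) (u, P) :=
      ((hcp v).continuousAt.neg).div (hcf v).continuousAt (hne v)
    refine continuousAt_pi.2 fun i => ?_
    have h4 : Continuous fun q : (∀ v, Fin A → L v) × (∀ v, (Fin A → L v) × (Fin B → L v)) =>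
        (q.2 v).1 i := by fun_prop
    have h5 : Continuous fun q : (∀ v, Fin A → L v) × (∀ v, (Fin A → L v) × (Fin B → L v)) =>
        q.1 v i := by fun_prop
    exact h4.continuousAt.add (h3.mul h5.continuousAt)
  rw [mem_closure_iff_nhds, ← hΨ]
  intro O hO
  have hW : Ψ ⁻¹' O ∩ {q | ∀ v, form (cv v) (q.1 v) (q.2 v).2 ≠ 0} ∈ 𝓝 (u, P) := by
    refine Filter.inter_mem (hΨc hO) ?_
    rw [Set.ofPred_forall]
    exact Filter.iInter_mem.2 fun v => (hcf v).continuousAt.eventually_ne (hne v)
  have hcl : (u, P) ∈ closure (Set.range (fun (a : Fin A → K) (v : ι) (l : Fin A) => σ v (a l)) ×ˢ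
      pts c σ) := by
    rw [closure_prod_eq]
    exact ⟨dense_vec hσ A u, hP⟩
  obtain ⟨⟨_, _⟩, ⟨hq1, hq2⟩, ⟨a, rfl⟩, ⟨x, y, hxy, rfl⟩⟩ := mem_closure_iff_nhds.1 hcl _ hW
  have hfa : ∀ v, form (cv v) (fun l => σ v (a l)) (fun k => σ v (y k)) = σ v (form c a y) :=
    fun v => form_map (σ v) c a y
  have hpa : ∀ v, polX (cv v) (fun k => σ v (y k)) (fun i => σ v (x i)) (fun l => σ v (a l)) =
      σ v (polX c y x a) := fun v => polX_map (σ v) c y x a
  have hay : form c a y ≠ 0 := by
    intro h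
    apply hq2 v₀
    change form (cv v₀) (fun l => σ v₀ (a l)) (fun k => σ v₀ (y k)) = 0
    rw [hfa, h, map_zero]
  refine ⟨_, hq1, x + (-(polX c y x a) / form c a y) • a, y, ?_, ?_⟩
  · rw [form_line, hxy]
    field_simp
    ring
  · funext v
    change ((fun i => σ v (x i)) + (-(polX (cv v) (fun k => σ v (y k)) (fun i => σ v (x i))
      (fun l => σ v (a l))) / form (cv v) (fun l => σ v (a l)) (fun k => σ v (y k))) •
        (fun l => σ v (a l)), fun k => σ v (y k)) = _
    rw [hfa, hpa]
    ext i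
    · change σ v (x i) + -(σ v (polX c y x a)) / σ v (form c a y) * σ v (a i) =
        σ v (x i + (-(polX c y x a) / form c a y) * a i)
      rw [map_add, map_mul, map_div₀, map_neg]
    · rfl

theorem pts_sw (c : Fin A → Fin A → Fin B → Fin B → K) (S : ∀ v, (Fin A → L v) × (Fin B → L v)) :
    S ∈ closure (pts c σ) ↔ (fun v => (S v).swap) ∈ closure (pts (sw c) σ) := by
  have hc : ∀ A B : ℕ, Continuous fun (S : ∀ v, (Fin A → L v) × (Fin B → L v)) (v : ι) =>
      (S v).swap := fun A B => continuous_pi fun v => continuous_swap.comp (continuous_apply v)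
  constructor
  · intro h
    refine map_mem_closure (hc A B) h ?_
    rintro _ ⟨x, y, hxy, rfl⟩
    exact ⟨y, x, by rw [form_sw]; exact hxy, rfl⟩
  · intro h
    have h2 := map_mem_closure (t := pts c σ) (hc B A) h (by
      rintro _ ⟨y, x, hxy, rfl⟩
      exact ⟨x, y, by rw [← form_sw]; exact hxy, rfl⟩)
    exact h2

/-- **Moves in the second group of variables.** -/
theorem ymove (hσ : DenseRange fun (a : K) (v : ι) => σ v a)
    {P : ∀ v, (Fin A → L v) × (Fin B → L v)} (hP : P ∈ closure (pts c σ))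
    (y' : ∀ v, Fin B → L v)
    (h0 : ∀ v, form (fun i j k l => σ v (c i j k l)) (P v).1 (P v).2 = 0)
    (h1 : ∀ v, form (fun i j k l => σ v (c i j k l)) (P v).1 (y' v) = 0)
    (hB : ∀ v, polY (fun i j k l => σ v (c i j k l)) (P v).1 (P v).2 (y' v) ≠ 0) :
    (fun v => ((P v).1, y' v)) ∈ closure (pts c σ) := by
  rw [pts_sw]
  refine xmove (c := sw c) hσ (P := fun v => (P v).swap) ((pts_sw c P).1 hP) y' (fun v => ?_)
    (fun v => ?_) fun v => ?_
  · exact (form_sw (fun i j k l => σ v (c i j k l)) (P v).1 (P v).2).trans (h0 v)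
  · exact (form_sw (fun i j k l => σ v (c i j k l)) (P v).1 (y' v)).trans (h1 v)
  · have h := hB v
    rw [polY_sw] at h
    exact h

end

end Pool.Agent.R70.BT
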